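import Pool.Agent.Lib.MP_071ace_co.AA.Defs

/-!
# The number of pairs outside the closure, on average
-/

set_option autoImplicit false

namespace Pool.Agent.Lib.MP_071ace_co.AA

open Finset Submodule

section

variable {V : Type} [Fintype V] [DecidableEq V]

theorem le_CL (G : SimpleGraph V) : G ≤ CL G := by
  obtain ⟨p, hp⟩ := exists_generic V
  intro a b h
  exact (mem_CL hp).mpr ⟨h.ne, subset_span ⟨_, h, rfl⟩⟩

theorem mem_nonE {G : SimpleGraph V} {e : Sym2 V} :
    e ∈ nonE G ↔ ¬ e.IsDiag ∧ e ∉ (CL G).edgeSet := by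
  classical
  simp [nonE]

/-- an independent graph has at most `3 n` edges -/
theorem ncard_indep_le {G : SimpleGraph V} (h : Independent G) :
    G.edgeSet.ncard ≤ 3 * Fintype.card V := by
  classical
  obtain ⟨p, hp⟩ := exists_generic V
  rw [← finrank_indep hp h]
  refine (Submodule.finrank_le _).trans ?_
  rw [Module.finrank_fintype_fun_eq_card, Fintype.card_prod, Fintype.card_fin, mul_comm]

/-- `G` with one more edge -/
def addE (G : SimpleGraph V) (e : Sym2 V) : SimpleGraph V :=
  SimpleGraph.fromEdgeSet (insert e G.edgeSet)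

theorem edgeSet_addE (G : SimpleGraph V) {e : Sym2 V} (he : ¬ e.IsDiag) :
    (addE G e).edgeSet = insert e G.edgeSet := by
  apply edgeSet_from
  rintro x (h | h)
  · exact he (h ▸ Sym2.mk_isDiag_iff.mpr rfl)
  · exact G.loopless.irrefl x h

theorem addE_indep {G : SimpleGraph V} (hG : Independent G) {e : Sym2 V} (he : e ∈ nonE G) :
    Independent (addE G e) := by
  obtain ⟨p, hp⟩ := exists_generic V
  rw [mem_nonE] at he
  rw [Independent, edgeSet_addE G he.1]
  have hne : e ∉ G.edgeSet := fun h =>
    he.2 (SimpleGraph.edgeSet_subset_edgeSet.mpr (le_CL G) h)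
  rw [hp.indep_insert_iff hG hne]
  intro h
  apply he.2
  induction e using Sym2.ind with
  | _ a b =>
    have hab : a ≠ b := fun e => he.1 (Sym2.mk_isDiag_iff.mpr e)
    exact (mem_CL hp).mpr ⟨hab, h⟩

end

theorem mem_indset {n : ℕ} {G : SimpleGraph (Fin n)} : G ∈ indset n ↔ Independent G := by
  classical
  simp [indset]

theorem stC : StC := by
  classical
  intro n
  have h1 : ∑ G ∈ indset n, (nonE G).card = ((indset n).sigma fun G => nonE G).card :=
    (card_sigma _ _).symm
  have h2 : ((indset n).sigma fun G => nonE G).card ≤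
      ((indset n).sigma fun G => (Set.toFinite G.edgeSet).toFinset).card := by
    refine card_le_card_of_injOn (fun q => ⟨addE q.1 q.2, q.2⟩) ?_ ?_
    · rintro ⟨G, e⟩ hq
      rw [mem_coe, mem_sigma] at hq
      rw [mem_coe, mem_sigma]
      refine ⟨mem_indset.mpr (addE_indep (mem_indset.mp hq.1) hq.2), ?_⟩
      show e ∈ (Set.toFinite (addE G e).edgeSet).toFinset
      rw [Set.Finite.mem_toFinset, edgeSet_addE G (mem_nonE.mp hq.2).1]
      exact Or.inl rfl
    · rintro ⟨G, e⟩ hq ⟨G', e'⟩ hq' h
      rw [mem_coe, mem_sigma] at hq hq'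
      have h3 : addE G e = addE G' e' := congrArg Sigma.fst h
      have h4 : e = e' := by
        have := congrArg (fun q : (_ : SimpleGraph (Fin n)) × Sym2 (Fin n) => q.2) h
        exact this
      subst h4
      have h5 := congrArg SimpleGraph.edgeSet h3
      rw [edgeSet_addE G (mem_nonE.mp hq.2).1, edgeSet_addE G' (mem_nonE.mp hq.2).1] at h5
      have hne : e ∉ G.edgeSet := fun h =>
        (mem_nonE.mp hq.2).2 (SimpleGraph.edgeSet_subset_edgeSet.mpr (le_CL G) h)
      have hne' : e ∉ G'.edgeSet := fun h =>
        (mem_nonE.mp hq'.2).2 (SimpleGraph.edgeSet_subset_edgeSet.mpr (le_CL G') h)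
      have h6 : G.edgeSet = G'.edgeSet := by
        ext f
        constructor
        · intro hf
          have : f ∈ insert e G'.edgeSet := h5 ▸ Or.inr hf
          rcases this with rfl | h
          · exact absurd hf hne
          · exact h
        · intro hf
          have : f ∈ insert e G.edgeSet := h5.symm ▸ Or.inr hf
          rcases this with rfl | h
          · exact absurd hf hne'
          · exact h
      rw [SimpleGraph.edgeSet_inj] at h6
      rw [h6]
  rw [h1]
  refine h2.trans ?_
  rw [card_sigma]
  have h3 : ∀ G ∈ indset n, (Set.toFinite G.edgeSet).toFinset.card ≤ 3 * n := by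
    intro G hG
    have := ncard_indep_le (mem_indset.mp hG)
    rwa [Fintype.card_fin, Set.ncard_eq_toFinset_card _ (Set.toFinite _)] at this
  refine (sum_le_sum h3).trans ?_
  rw [sum_const, smul_eq_mul, mul_comm]

end Pool.Agent.Lib.MP_071ace_co.AA
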