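import Pool.Agent.Lib.MP_071ace_co.AA.Rig
import Pool.Agent.Lib.MP_071ace_co.AA.Count

/-!
# A large maximal clique of the closure
-/

set_option autoImplicit false

namespace Pool.Agent.Lib.MP_071ace_co.AA

open Finset

section

variable {V : Type} [Fintype V] [DecidableEq V]

theorem Cq_insert {G : SimpleGraph V} {K : Finset V} {v : V} (h : Cq G K)
    (hv : ∀ x ∈ K, (CL G).Adj v x) : Cq G (insert v K) := by
  intro a ha b hb hab
  rw [mem_insert] at ha hb
  rcases ha with rfl | ha
  · rcases hb with rfl | hb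
    · exact absurd rfl hab
    · exact hv b hb
  · rcases hb with rfl | hb
    · exact (hv a ha).symm
    · exact h a ha b hb hab

theorem exists_maxcard (P : Finset V → Prop) {A : Finset V} (hA : P A) :
    ∃ K, P K ∧ ∀ K', P K' → K'.card ≤ K.card := by
  classical
  obtain ⟨K, hK, hmax⟩ := exists_max_image (univ.filter P) card
    ⟨A, mem_filter.mpr ⟨mem_univ _, hA⟩⟩
  exact ⟨K, (mem_filter.mp hK).2, fun K' hK' => hmax K' (mem_filter.mpr ⟨mem_univ _, hK'⟩)⟩

/-- many vertices outside the clique give many pairs outside the closure -/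
theorem out_mul {G : SimpleGraph V} {K : Finset V} (hM : Mx G K) (hK : 3 ≤ K.card) :
    (univ \ K).card * (K.card - 2) ≤ (nonE G).card := by
  classical
  have h1 : ((univ \ K).sigma fun v => K.filter fun x => ¬ (CL G).Adj v x).card ≤
      (nonE G).card := by
    refine card_le_card_of_injOn (fun q => s(q.1, q.2)) ?_ ?_
    · rintro ⟨v, x⟩ hq
      rw [mem_coe, mem_sigma, mem_sdiff, mem_filter] at hq
      obtain ⟨⟨_, hv⟩, hx, hadj⟩ := hq
      rw [mem_coe, mem_nonE]
      exact ⟨fun h => hv ((Sym2.mk_isDiag_iff.mp h).symm ▸ hx), hadj⟩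
    · rintro ⟨v, x⟩ hq ⟨v', x'⟩ hq' h
      rw [mem_coe, mem_sigma, mem_sdiff, mem_filter] at hq hq'
      obtain ⟨⟨_, hv⟩, hx, _⟩ := hq
      obtain ⟨⟨_, hv'⟩, hx', _⟩ := hq'
      simp only at h hv hx hv' hx'
      rcases Sym2.eq_iff.mp h with ⟨rfl, rfl⟩ | ⟨rfl, rfl⟩
      · rfl
      · exact absurd hx' hv
  refine le_trans ?_ h1
  rw [card_sigma, ← smul_eq_mul]
  apply card_nsmul_le_sum
  intro v hv
  have hv' := (mem_sdiff.mp hv).2
  have h2 := stA V G K hM hK v hv'
  have h3 : (K.filter fun x => (CL G).Adj v x).card +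
      (K.filter fun x => ¬ (CL G).Adj v x).card = K.card := by
    rw [card_filter_add_card_filter_not]
  have h4 : nbs (CL G) K v = K.filter fun x => (CL G).Adj v x := by
    ext x
    rw [mem_nbs, mem_filter]
  rw [h4] at h2
  omega

end

theorem stD : StD := by
  classical
  intro S hS
  refine ⟨4 * (4 * S + 2), fun n hn G hG => ?_⟩
  set H := (CL G)ᶜ with hH
  have hE : nonE G = H.edgeFinset := by
    ext e
    rw [mem_nonE, SimpleGraph.mem_edgeFinset]
    induction e using Sym2.ind with
    | _ a b =>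
      rw [SimpleGraph.mem_edgeSet, SimpleGraph.mem_edgeSet, hH, SimpleGraph.compl_adj,
        Sym2.mk_isDiag_iff]
  have hsum : ∑ v, H.degree v = 2 * (nonE G).card := by
    rw [hE, H.sum_degrees_eq_twice_card_edges]
  set W := univ.filter fun v => H.degree v ≤ 2 * S with hW
  have hWc : (2 * S + 1) * (n - W.card) ≤ 2 * (nonE G).card := by
    rw [← hsum]
    have h1 : (univ \ W).card = n - W.card := by
      rw [card_sdiff_of_subset (subset_univ _), card_univ, Fintype.card_fin]
    have h2 : (univ \ W).card • (2 * S + 1) ≤ ∑ v ∈ univ \ W, H.degree v := by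
      apply card_nsmul_le_sum
      intro v hv
      have := (mem_sdiff.mp hv).2
      rw [hW, mem_filter] at this
      push Not at this
      exact this (mem_univ _)
    have h3 : ∑ v ∈ univ \ W, H.degree v ≤ ∑ v, H.degree v :=
      sum_le_sum_of_subset (subset_univ _)
    rw [h1, smul_eq_mul, mul_comm] at h2
    exact h2.trans h3
  have hWn : n < 2 * W.card := by
    by_contra hcon
    push Not at hcon
    have h1 : n ≤ 2 * (n - W.card) := by omega
    have h2 : (2 * S + 1) * n ≤ 2 * ((2 * S + 1) * (n - W.card)) := by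
      calc (2 * S + 1) * n ≤ (2 * S + 1) * (2 * (n - W.card)) := Nat.mul_le_mul_left _ h1
        _ = _ := by ring
    have h3 : (2 * S + 1) * n < 2 * (S * n) := by omega
    have h4 : 2 * (S * n) ≤ (2 * S + 1) * n := by
      calc 2 * (S * n) = (2 * S) * n := by ring
        _ ≤ _ := Nat.mul_le_mul_right _ (by omega)
    omega
  obtain ⟨K0, ⟨hK0W, hK0⟩, hK0max⟩ := exists_maxcard (fun K => K ⊆ W ∧ Cq G K) (A := ∅)
    ⟨empty_subset _, fun a ha => absurd ha (notMem_empty a)⟩
  have hWK : (W \ K0).card ≤ K0.card * (2 * S) := by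
    have h1 : W \ K0 ⊆ K0.biUnion fun x => H.neighborFinset x := by
      intro w hw
      rw [mem_sdiff] at hw
      by_contra hcon
      rw [mem_biUnion] at hcon
      push Not at hcon
      have h2 : ∀ x ∈ K0, (CL G).Adj w x := by
        intro x hx
        have h3 := hcon x hx
        rw [SimpleGraph.mem_neighborFinset, hH, SimpleGraph.compl_adj] at h3
        push Not at h3
        exact (h3 (fun e => hw.2 (e ▸ hx))).symm
      have h4 := hK0max (insert w K0) ⟨insert_subset hw.1 hK0W, Cq_insert hK0 h2⟩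
      rw [card_insert_of_notMem hw.2] at h4
      omega
    refine (card_le_card h1).trans (card_biUnion_le_card_mul _ _ _ ?_)
    intro x hx
    have := (mem_filter.mp (hK0W hx)).2
    rwa [← SimpleGraph.card_neighborFinset_eq_degree] at this
  have hWK2 : W.card ≤ K0.card * (2 * S + 1) := by
    have h1 : (W \ K0).card + K0.card = W.card := card_sdiff_add_card_eq_card hK0W
    have h2 : K0.card * (2 * S + 1) = K0.card * (2 * S) + K0.card := by ring
    omega
  obtain ⟨K, ⟨hKK0, hKC⟩, hKmax⟩ := exists_maxcard (fun K => K0 ⊆ K ∧ Cq G K) (A := K0)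
    ⟨subset_rfl, hK0⟩
  have hM : Mx G K := by
    refine ⟨hKC, fun v hv => ?_⟩
    by_contra hcon
    push Not at hcon
    have h4 := hKmax (insert v K) ⟨hKK0.trans (subset_insert _ _), Cq_insert hKC hcon⟩
    rw [card_insert_of_notMem hv] at h4
    omega
  have hKn : n < (4 * S + 2) * K.card := by
    have h1 := card_le_card hKK0
    have h2 : K0.card * (2 * S + 1) ≤ K.card * (2 * S + 1) := Nat.mul_le_mul_right _ h1
    have h3 : (4 * S + 2) * K.card = 2 * (K.card * (2 * S + 1)) := by ring
    omega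
  have hK5 : 4 < K.card := by
    by_contra hcon
    push Not at hcon
    have h1 : (4 * S + 2) * K.card ≤ (4 * S + 2) * 4 := Nat.mul_le_mul_left _ hcon
    omega
  refine ⟨K, hM, by omega, ?_⟩
  have hout := out_mul hM (by omega)
  have hO : (univ \ K).card = n - K.card := by
    rw [card_sdiff_of_subset (subset_univ _), card_univ, Fintype.card_fin]
  by_contra hcon
  push Not at hcon
  have h1 : 4 * S ^ 2 + 2 * S + 1 ≤ (univ \ K).card := by omega
  obtain ⟨k, hk⟩ : ∃ k, K.card = k + 2 := ⟨K.card - 2, by omega⟩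
  have h2 : (4 * S ^ 2 + 2 * S + 1) * k ≤ (nonE G).card := by
    refine le_trans (Nat.mul_le_mul_right k h1) ?_
    rw [hk] at hout
    simpa using hout
  have h3 : S * n < S * ((4 * S + 2) * (k + 2)) := by
    rw [← hk]
    exact Nat.mul_lt_mul_of_pos_left hKn (by omega)
  have h4 : 2 * ((4 * S ^ 2 + 2 * S + 1) * k) < S * ((4 * S + 2) * (k + 2)) := by omega
  have h5 : 3 ≤ k := by omega
  nlinarith
end Pool.Agent.Lib.MP_071ace_co.AA
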