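import Mathlib
import Pool.Agent.Lib.MP_071ace_co.Stmt

/-!
# Almost all independent graphs: definitions and module statements
-/

set_option autoImplicit false

namespace Pool.Agent.Lib.MP_071ace_co.AA

open Finset

section graph

variable {V : Type} [Fintype V] [DecidableEq V]

/-- `K` is a clique of the closure -/
def Cq (G : SimpleGraph V) (K : Finset V) : Prop :=
  ∀ a ∈ K, ∀ b ∈ K, a ≠ b → (CL G).Adj a b

/-- `K` is a maximal clique of the closure -/
def Mx (G : SimpleGraph V) (K : Finset V) : Prop :=
  Cq G K ∧ ∀ v, v ∉ K → ∃ x ∈ K, ¬ (CL G).Adj v x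

open Classical in
/-- the neighbours of `x` in `T` -/
noncomputable def nbs (G : SimpleGraph V) (T : Finset V) (x : V) : Finset V :=
  T.filter fun y => G.Adj x y

open Classical in
/-- the neighbours of the set `O` outside `O` -/
noncomputable def outN (G : SimpleGraph V) (O : Finset V) : Finset V :=
  Finset.univ.filter fun x => x ∉ O ∧ ∃ v ∈ O, G.Adj v x

/-- a nonempty set with less than `2 |O|` outside neighbours -/
def Loose (G : SimpleGraph V) (O : Finset V) : Prop :=
  O.Nonempty ∧ (outN G O).card + 1 ≤ 2 * O.card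

open Classical in
/-- the pairs outside the closure -/
noncomputable def nonE (G : SimpleGraph V) : Finset (Sym2 V) :=
  Finset.univ.filter fun e => ¬ e.IsDiag ∧ e ∉ (CL G).edgeSet

end graph

open Classical in
/-- the independent graphs on `Fin n` -/
noncomputable def indset (n : ℕ) : Finset (SimpleGraph (Fin n)) :=
  Finset.univ.filter fun G => Independent G

/-- A2: a vertex outside a maximal clique has at most two neighbours in it -/
def StA : Prop := ∀ (V : Type) [Fintype V] [DecidableEq V] (G : SimpleGraph V) (K : Finset V),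
  Mx G K → 3 ≤ K.card → ∀ v ∉ K, (nbs (CL G) K v).card ≤ 2

/-- B: all implied nonedges are in `K` when every other vertex has two private neighbours -/
def StB : Prop := ∀ (V : Type) [Fintype V] [DecidableEq V] (G : SimpleGraph V) (K : Finset V),
  Independent G → Mx G K → 3 ≤ K.card → (∀ v ∉ K, (nbs G K v).card = 2) →
  (∀ v ∉ K, ∀ w ∉ K, v ≠ w → Disjoint (nbs G K v) (nbs G K w)) →
  ∀ u v, Implied G u v → u ∈ K ∧ v ∈ K

/-- C: double counting -/
def StC : Prop := ∀ n : ℕ, ∑ G ∈ indset n, (nonE G).card ≤ 3 * n * (indset n).card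

/-- D: few pairs outside the closure give a large maximal clique -/
def StD : Prop := ∀ S : ℕ, 1 ≤ S → ∃ N : ℕ, ∀ n ≥ N, ∀ G : SimpleGraph (Fin n),
  2 * (nonE G).card < S * n → ∃ K : Finset (Fin n), Mx G K ∧ 3 ≤ K.card ∧
    n ≤ K.card + (4 * S ^ 2 + 2 * S)

open Classical in
/-- E: few independent graphs have a loose set of given size -/
def StE : Prop := ∀ s : ℕ, 1 ≤ s → ∃ (C : ℝ) (N : ℕ), 0 ≤ C ∧ ∀ n ≥ N,
  (((indset n).filter fun G => ∃ O : Finset (Fin n), O.card = s ∧ Loose G O).card : ℝ) * n ≤
    C * (indset n).card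

/-- The typical structure: all but at most `s` vertices form a set `K` on which `G` is isostatic
(`3 |K| - 6` edges, all pairs in the closure), the other vertices induce a forest, each of them
has exactly two neighbours in `K`, no vertex of `K` is used twice, the closure of `G` consists of
`G` and the pairs inside `K`, and every implied nonedge is in a `K_5` of the closure. -/
structure Typical {n : ℕ} (s : ℕ) (G : SimpleGraph (Fin n)) (K : Finset (Fin n)) : Prop where
  large : n ≤ K.card + s
  closure : ∀ u v, (CL G).Adj u v ↔ G.Adj u v ∨ (u ≠ v ∧ u ∈ K ∧ v ∈ K)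
  isostatic : (within G K).edgeSet.ncard + 6 = 3 * K.card
  forest : (G.induce {v | v ∉ K}).IsAcyclic
  two : ∀ v ∉ K, {x | x ∈ K ∧ G.Adj v x}.ncard = 2
  disj : ∀ v w x, v ∉ K → w ∉ K → x ∈ K → G.Adj v x → G.Adj w x → v = w
  implied : ∀ u v, Implied G u v → InK5 G u v

end Pool.Agent.Lib.MP_071ace_co.AA
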