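import Pool.Agent.Lib.MP_071ace_co.AA.Count

/-!
# Few independent graphs have a small loose set
-/

set_option autoImplicit false

namespace Pool.Agent.Lib.MP_071ace_co.AA

open Finset Submodule

section

variable {V : Type} [Fintype V] [DecidableEq V]

/-- `H` and all pairs between `v` and `N` -/
def addStar (H : SimpleGraph V) (v : V) (N : Finset V) : SimpleGraph V where
  Adj a b := H.Adj a b ∨ (a = v ∧ b ∈ N ∧ b ≠ v) ∨ (b = v ∧ a ∈ N ∧ a ≠ v)
  symm := ⟨by
    rintro a b (h | h | h)
    · exact Or.inl h.symm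
    · exact Or.inr (Or.inr h)
    · exact Or.inr (Or.inl h)⟩
  loopless := ⟨by
    rintro a (h | ⟨h1, _, h2⟩ | ⟨h1, _, h2⟩)
    · exact H.loopless.irrefl a h
    · exact h2 h1
    · exact h2 h1⟩

theorem edgeSet_addStar (H : SimpleGraph V) {v : V} {N : Finset V} (hv : v ∉ N) :
    (addStar H v N).edgeSet = H.edgeSet ∪ star v N := by
  ext e
  induction e using Sym2.ind with
  | _ a b =>
    constructor
    · rintro (h | ⟨rfl, h, _⟩ | ⟨rfl, h, _⟩)
      · exact Or.inl h
      · exact Or.inr ⟨b, h, rfl⟩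
      · exact Or.inr ⟨a, h, Sym2.eq_swap⟩
    · rintro (h | ⟨y, hy, h⟩)
      · exact Or.inl h
      · have hyv : y ≠ v := fun e => hv (e ▸ hy)
        rcases Sym2.eq_iff.mp h with ⟨rfl, rfl⟩ | ⟨rfl, rfl⟩
        · exact Or.inr (Or.inl ⟨rfl, hy, hyv⟩)
        · exact Or.inr (Or.inr ⟨rfl, hy, hyv⟩)

/-- the edges of `G` not meeting `O` -/
def offG (G : SimpleGraph V) (O : Finset V) : SimpleGraph V where
  Adj a b := G.Adj a b ∧ a ∉ O ∧ b ∉ O
  symm := ⟨fun _ _ h => ⟨h.1.symm, h.2.2, h.2.1⟩⟩
  loopless := ⟨fun a h => G.loopless.irrefl a h.1⟩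

open Classical in
/-- the edges of `G` meeting `O` -/
noncomputable def meetE (G : SimpleGraph V) (O : Finset V) : Finset (Sym2 V) :=
  univ.filter fun e => e ∈ G.edgeSet ∧ ∃ v ∈ O, v ∈ e

theorem mem_outN {G : SimpleGraph V} {O : Finset V} {x : V} :
    x ∈ outN G O ↔ x ∉ O ∧ ∃ v ∈ O, G.Adj v x := by
  classical
  simp [outN]

theorem mem_meetE {G : SimpleGraph V} {O : Finset V} {e : Sym2 V} :
    e ∈ meetE G O ↔ e ∈ G.edgeSet ∧ ∃ v ∈ O, v ∈ e := by
  classical
  simp [meetE]

end

open Classical in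
/-- the independent graphs without edges meeting `O` -/
noncomputable def indoff (n : ℕ) (O : Finset (Fin n)) : Finset (SimpleGraph (Fin n)) :=
  (indset n).filter fun G => ∀ a b, G.Adj a b → a ∉ O

theorem mem_indoff {n : ℕ} {O : Finset (Fin n)} {G : SimpleGraph (Fin n)} :
    G ∈ indoff n O ↔ Independent G ∧ ∀ a b, G.Adj a b → a ∉ O := by
  classical
  rw [indoff, mem_filter, mem_indset]

theorem indoff_step {n : ℕ} {O : Finset (Fin n)} {v : Fin n} (hv : v ∉ O) :
    (indoff n (insert v O)).card * (n - (insert v O).card).choose 3 ≤ (indoff n O).card := by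
  classical
  have h1 : (n - (insert v O).card).choose 3 =
      (powersetCard 3 (univ \ insert v O)).card := by
    rw [card_powersetCard, card_sdiff_of_subset (subset_univ _), card_univ, Fintype.card_fin]
  rw [h1, ← card_product]
  obtain ⟨p, hp⟩ := exists_generic (Fin n)
  have hmemN : ∀ N ∈ powersetCard 3 (univ \ insert v O), N.card = 3 ∧ v ∉ N ∧
      ∀ x ∈ N, x ∉ O := by
    intro N hN
    rw [mem_powersetCard] at hN
    refine ⟨hN.2, fun h => ?_, fun x hx hxO => ?_⟩
    · exact (mem_sdiff.mp (hN.1 h)).2 (mem_insert_self _ _)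
    · exact (mem_sdiff.mp (hN.1 hx)).2 (mem_insert_of_mem hxO)
  refine card_le_card_of_injOn (fun q => addStar q.1 v q.2) ?_ ?_
  · rintro ⟨H, N⟩ hq
    rw [mem_coe, mem_product, mem_indoff] at hq
    obtain ⟨⟨hH, hoff⟩, hN⟩ := hq
    obtain ⟨hN3, hvN, hNO⟩ := hmemN N hN
    rw [mem_coe, mem_indoff]
    constructor
    · rw [Independent, edgeSet_addStar H hvN]
      refine hp.zero_ext ?_ hH hvN hN3.le
      intro e he hve
      obtain ⟨y, rfl⟩ := Sym2.mem_iff_exists.mp hve
      exact hoff v y he (mem_insert_self _ _)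
    · rintro a b (h | ⟨rfl, _, _⟩ | ⟨_, h, _⟩)
      · exact fun ha => hoff a b h (mem_insert_of_mem ha)
      · exact hv
      · exact hNO a h
  · rintro ⟨H, N⟩ hq ⟨H', N'⟩ hq' h
    rw [mem_coe, mem_product, mem_indoff] at hq hq'
    obtain ⟨⟨hH, hoff⟩, hN⟩ := hq
    obtain ⟨⟨hH', hoff'⟩, hN'⟩ := hq'
    obtain ⟨_, hvN, _⟩ := hmemN N hN
    obtain ⟨_, hvN', _⟩ := hmemN N' hN'
    simp only at h hoff hoff' hN hN' hvN hvN'
    have hAdj : ∀ a b, (addStar H v N).Adj a b ↔ (addStar H' v N').Adj a b := fun a b => by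
      rw [h]
    have hnb : ∀ (H : SimpleGraph (Fin n)) (N : Finset (Fin n)),
        (∀ a b, H.Adj a b → a ∉ insert v O) → v ∉ N → ∀ b, b ∈ N ↔ (addStar H v N).Adj v b := by
      intro H N hoff hvN b
      constructor
      · intro hb
        exact Or.inr (Or.inl ⟨rfl, hb, fun e => hvN (e ▸ hb)⟩)
      · rintro (h | ⟨_, h, _⟩ | ⟨_, h, _⟩)
        · exact absurd (mem_insert_self v O) (hoff v b h)
        · exact h
        · exact absurd h hvN
    have hre : ∀ (H : SimpleGraph (Fin n)) (N : Finset (Fin n)),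
        (∀ a b, H.Adj a b → a ∉ insert v O) →
        ∀ a b, H.Adj a b ↔ (addStar H v N).Adj a b ∧ a ≠ v ∧ b ≠ v := by
      intro H N hoff a b
      constructor
      · intro hb
        refine ⟨Or.inl hb, fun e => ?_, fun e => ?_⟩
        · exact hoff a b hb (e ▸ mem_insert_self _ _)
        · exact hoff b a hb.symm (e ▸ mem_insert_self _ _)
      · rintro ⟨h | ⟨h, _, _⟩ | ⟨h, _, _⟩, h1, h2⟩
        · exact h
        · exact absurd h h1
        · exact absurd h h2
    have e1 : H = H' := by
      ext a b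
      rw [hre H N hoff, hre H' N' hoff', hAdj]
    have e2 : N = N' := by
      ext b
      rw [hnb H N hoff hvN, hnb H' N' hoff' hvN', hAdj]
    rw [e1, e2]

theorem indoff_le (n s : ℕ) (O : Finset (Fin n)) : O.card ≤ s →
    (indoff n O).card * (n - s).choose 3 ^ O.card ≤ (indset n).card := by
  classical
  induction O using Finset.induction_on with
  | empty =>
    intro _
    rw [card_empty, pow_zero, mul_one]
    exact card_le_card (filter_subset _ _)
  | insert v O hv ih =>
    intro hs
    have hc := card_insert_of_notMem hv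
    have ih' := ih (by omega)
    have h1 : (n - s).choose 3 ≤ (n - (insert v O).card).choose 3 :=
      Nat.choose_le_choose 3 (by omega)
    calc (indoff n (insert v O)).card * (n - s).choose 3 ^ (insert v O).card
        = ((indoff n (insert v O)).card * (n - s).choose 3) * (n - s).choose 3 ^ O.card := by
          rw [hc]; ring
      _ ≤ ((indoff n (insert v O)).card * (n - (insert v O).card).choose 3) *
          (n - s).choose 3 ^ O.card :=
          Nat.mul_le_mul_right _ (Nat.mul_le_mul_left _ h1)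
      _ ≤ (indoff n O).card * (n - s).choose 3 ^ O.card :=
          Nat.mul_le_mul_right _ (indoff_step hv)
      _ ≤ _ := ih'

open Classical in
/-- the independent graphs with all neighbours of `O` in `O ∪ T` -/
noncomputable def LO (n : ℕ) (O T : Finset (Fin n)) : Finset (SimpleGraph (Fin n)) :=
  (indset n).filter fun G => ∀ a ∈ O, ∀ b, G.Adj a b → b ∈ O ∪ T

theorem LO_le {n s : ℕ} {O T : Finset (Fin n)} (hO : O.card = s) (hT : T.card ≤ 2 * s) :
    (LO n O T).card ≤ (indoff n O).card * 2 ^ (3 * s ^ 2) := by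
  classical
  set P : Finset (Sym2 (Fin n)) := (O ×ˢ (O ∪ T)).image fun q => s(q.1, q.2) with hP
  have hPc : P.card ≤ 3 * s ^ 2 := by
    refine card_image_le.trans ?_
    rw [card_product]
    have := card_union_le O T
    calc O.card * (O ∪ T).card ≤ s * (3 * s) := Nat.mul_le_mul hO.le (by omega)
      _ = _ := by ring
  have h1 : (LO n O T).card ≤ ((indoff n O) ×ˢ P.powerset).card := by
    refine card_le_card_of_injOn (fun G => (offG G O, meetE G O)) ?_ ?_
    · intro G hG
      rw [mem_coe, LO, mem_filter, mem_indset] at hG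
      rw [mem_coe, mem_product, mem_indoff, mem_powerset]
      refine ⟨⟨?_, fun a b h => h.2.1⟩, ?_⟩
      · have hle : offG G O ≤ G := fun a b h => h.1
        exact hG.1.mono (SimpleGraph.edgeSet_subset_edgeSet.mpr hle)
      · intro e he
        rw [mem_meetE] at he
        obtain ⟨he, v, hv, hve⟩ := he
        obtain ⟨y, rfl⟩ := Sym2.mem_iff_exists.mp hve
        rw [hP, mem_image]
        exact ⟨(v, y), mem_product.mpr ⟨hv, hG.2 v hv y he⟩, rfl⟩
    · intro G _ G' _ h
      have h2 : offG G O = offG G' O := congrArg Prod.fst h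
      have h3 : meetE G O = meetE G' O := congrArg Prod.snd h
      have key : ∀ (G : SimpleGraph (Fin n)) (a b : Fin n),
          G.Adj a b ↔ (offG G O).Adj a b ∨ s(a, b) ∈ meetE G O := by
        intro G a b
        rw [mem_meetE]
        constructor
        · intro h
          by_cases ha : a ∈ O
          · exact Or.inr ⟨h, a, ha, Sym2.mem_mk_left _ _⟩
          · by_cases hb : b ∈ O
            · exact Or.inr ⟨h, b, hb, Sym2.mem_mk_right _ _⟩
            · exact Or.inl ⟨h, ha, hb⟩
        · rintro (h | h)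
          · exact h.1
          · exact h.1
      ext a b
      rw [key G, key G', h2, h3]
  refine h1.trans ?_
  rw [card_product, card_powerset]
  exact Nat.mul_le_mul_left _ (Nat.pow_le_pow_right (by norm_num) hPc)

theorem cube_le {n s : ℕ} (hn : 2 * s + 4 ≤ n) : n ^ 3 ≤ 48 * (n - s).choose 3 := by
  have h1 := Nat.pow_sub_le_descFactorial (n - s) 3
  rw [Nat.descFactorial_eq_factorial_mul_choose] at h1
  have h2 : n ≤ 2 * (n - s + 1 - 3) := by omega
  have h3 : n ^ 3 ≤ (2 * (n - s + 1 - 3)) ^ 3 := Nat.pow_le_pow_left h2 3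
  have h4 : (3 : ℕ).factorial = 6 := rfl
  rw [h4] at h1
  calc n ^ 3 ≤ (2 * (n - s + 1 - 3)) ^ 3 := h3
    _ = 8 * (n - s + 1 - 3) ^ 3 := by ring
    _ ≤ 8 * (6 * (n - s).choose 3) := Nat.mul_le_mul_left _ h1
    _ = _ := by ring

theorem stE : StE := by
  classical
  intro s hs
  refine ⟨(48 ^ s * 2 ^ (3 * s ^ 2) : ℕ), 2 * s + 4, by positivity, fun n hn => ?_⟩
  have hcov : ((indset n).filter fun G => ∃ O : Finset (Fin n), O.card = s ∧ Loose G O) ⊆
      (powersetCard s (univ : Finset (Fin n))).biUnion fun O =>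
        (powersetCard (2 * s - 1) (univ : Finset (Fin n))).biUnion fun T => LO n O T := by
    intro G hG
    rw [mem_filter] at hG
    obtain ⟨hG, O, hO, hne, hL⟩ := hG
    obtain ⟨T, hT, hTc⟩ := Finset.exists_superset_card_eq (s := outN G O) (n := 2 * s - 1)
      (by omega) (by rw [Fintype.card_fin]; omega)
    rw [mem_biUnion]
    refine ⟨O, mem_powersetCard.mpr ⟨subset_univ _, hO⟩, ?_⟩
    rw [mem_biUnion]
    refine ⟨T, mem_powersetCard.mpr ⟨subset_univ _, hTc⟩, ?_⟩
    rw [LO, mem_filter]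
    refine ⟨hG, fun a ha b hab => ?_⟩
    rw [mem_union]
    by_cases hb : b ∈ O
    · exact Or.inl hb
    · refine Or.inr (hT ?_)
      rw [mem_outN]
      exact ⟨hb, a, ha, hab⟩
  set A := (n - s).choose 3 with hA
  set X := ((indset n).filter fun G => ∃ O : Finset (Fin n), O.card = s ∧ Loose G O).card with hX
  have hApos : 0 < A := Nat.choose_pos (by omega)
  have hXA : X * A ^ s ≤ n ^ s * (n ^ (2 * s - 1) * (2 ^ (3 * s ^ 2) * (indset n).card)) := by
    have h1 : X ≤ ∑ O ∈ powersetCard s (univ : Finset (Fin n)),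
        ∑ T ∈ powersetCard (2 * s - 1) (univ : Finset (Fin n)), (LO n O T).card := by
      refine (card_le_card hcov).trans (card_biUnion_le.trans ?_)
      exact sum_le_sum fun O _ => card_biUnion_le
    have h2 : ∀ O ∈ powersetCard s (univ : Finset (Fin n)),
        (∑ T ∈ powersetCard (2 * s - 1) (univ : Finset (Fin n)), (LO n O T).card) * A ^ s ≤
          n ^ (2 * s - 1) * (2 ^ (3 * s ^ 2) * (indset n).card) := by
      intro O hO
      have hOc := (mem_powersetCard.mp hO).2
      rw [sum_mul]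
      have h3 : ∀ T ∈ powersetCard (2 * s - 1) (univ : Finset (Fin n)),
          (LO n O T).card * A ^ s ≤ 2 ^ (3 * s ^ 2) * (indset n).card := by
        intro T hT
        have hTc := (mem_powersetCard.mp hT).2
        have h4 := LO_le hOc (show T.card ≤ 2 * s by omega)
        have h5 := indoff_le n s O hOc.le
        rw [hOc] at h5
        calc (LO n O T).card * A ^ s ≤ ((indoff n O).card * 2 ^ (3 * s ^ 2)) * A ^ s :=
              Nat.mul_le_mul_right _ h4
          _ = 2 ^ (3 * s ^ 2) * ((indoff n O).card * A ^ s) := by ring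
          _ ≤ _ := Nat.mul_le_mul_left _ h5
      refine (sum_le_sum h3).trans ?_
      rw [sum_const, smul_eq_mul, card_powersetCard, card_univ, Fintype.card_fin]
      exact Nat.mul_le_mul_right _ (Nat.choose_le_pow n _)
    calc X * A ^ s ≤ (∑ O ∈ powersetCard s (univ : Finset (Fin n)),
        ∑ T ∈ powersetCard (2 * s - 1) (univ : Finset (Fin n)), (LO n O T).card) * A ^ s :=
          Nat.mul_le_mul_right _ h1
      _ = ∑ O ∈ powersetCard s (univ : Finset (Fin n)),
        (∑ T ∈ powersetCard (2 * s - 1) (univ : Finset (Fin n)), (LO n O T).card) * A ^ s :=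
          sum_mul _ _ _
      _ ≤ ∑ O ∈ powersetCard s (univ : Finset (Fin n)),
          n ^ (2 * s - 1) * (2 ^ (3 * s ^ 2) * (indset n).card) := sum_le_sum h2
      _ ≤ _ := by
          rw [sum_const, smul_eq_mul, card_powersetCard, card_univ, Fintype.card_fin]
          exact Nat.mul_le_mul_right _ (Nat.choose_le_pow n _)
  have hn3 : n ^ (3 * s) ≤ 48 ^ s * A ^ s := by
    rw [pow_mul, ← mul_pow]
    exact Nat.pow_le_pow_left (cube_le hn) s
  have hfin : (X * n) * A ^ s ≤ (48 ^ s * 2 ^ (3 * s ^ 2) * (indset n).card) * A ^ s := by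
    have hpow : n * n ^ s * n ^ (2 * s - 1) = n ^ (3 * s) := by
      rw [← pow_succ', ← pow_add]
      congr 1
      omega
    calc (X * n) * A ^ s = n * (X * A ^ s) := by ring
      _ ≤ n * (n ^ s * (n ^ (2 * s - 1) * (2 ^ (3 * s ^ 2) * (indset n).card))) :=
          Nat.mul_le_mul_left _ hXA
      _ = (n * n ^ s * n ^ (2 * s - 1)) * (2 ^ (3 * s ^ 2) * (indset n).card) := by ring
      _ = n ^ (3 * s) * (2 ^ (3 * s ^ 2) * (indset n).card) := by rw [hpow]
      _ ≤ (48 ^ s * A ^ s) * (2 ^ (3 * s ^ 2) * (indset n).card) :=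
          Nat.mul_le_mul_right _ hn3
      _ = _ := by ring
  have hfin2 : X * n ≤ 48 ^ s * 2 ^ (3 * s ^ 2) * (indset n).card :=
    Nat.le_of_mul_le_mul_right hfin (pow_pos hApos s)
  exact_mod_cast hfin2

end Pool.Agent.Lib.MP_071ace_co.AA
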