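import Pool.Agent.Lib.MP_071ace_co.AA.Iso
import Pool.Agent.Lib.MP_071ace_co.AA.Clique
import Pool.Agent.Lib.MP_071ace_co.AA.LooseCount

/-!
# The theorem
-/

set_option autoImplicit false

namespace Pool.Agent.Lib.MP_071ace_co.AA

open Finset

section

variable {V : Type} [Fintype V] [DecidableEq V]

theorem nbs_mono {G H : SimpleGraph V} (h : G ≤ H) (K : Finset V) (v : V) :
    nbs G K v ⊆ nbs H K v := by
  intro x hx
  rw [mem_nbs] at hx ⊢
  exact ⟨hx.1, h hx.2⟩

theorem outN_eq (G : SimpleGraph V) (K : Finset V) :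
    outN G (univ \ K) = (univ \ K).biUnion fun v => nbs G K v := by
  ext x
  rw [mem_outN, mem_biUnion, mem_sdiff, not_and, not_not]
  constructor
  · rintro ⟨h, v, hv, hvx⟩
    exact ⟨v, hv, mem_nbs.mpr ⟨h (mem_univ x), hvx⟩⟩
  · rintro ⟨v, hv, hx⟩
    rw [mem_nbs] at hx
    exact ⟨fun _ => hx.1, v, hv, hx.2⟩

/-- if the outside has many neighbours then every outside vertex has two private ones -/
theorem private_of {G : SimpleGraph V} {K : Finset V} (h2 : ∀ v ∉ K, (nbs G K v).card ≤ 2)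
    (hout : 2 * (univ \ K).card ≤ (outN G (univ \ K)).card) :
    (∀ v ∉ K, (nbs G K v).card = 2) ∧
      ∀ v ∉ K, ∀ w ∉ K, v ≠ w → Disjoint (nbs G K v) (nbs G K w) := by
  classical
  have hmem : ∀ v, v ∉ K → v ∈ univ \ K := fun v hv => mem_sdiff.mpr ⟨mem_univ _, hv⟩
  rw [outN_eq] at hout
  have hsub : ∀ T ⊆ univ \ K, (T.biUnion fun v => nbs G K v).card ≤ 2 * T.card := by
    intro T hT
    rw [mul_comm]
    exact card_biUnion_le_card_mul _ _ _ fun v hv => h2 v (mem_sdiff.mp (hT hv)).2
  constructor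
  · intro v hv
    by_contra hne
    have h3 := h2 v hv
    have h4 : insert v ((univ \ K).erase v) = univ \ K := insert_erase (hmem v hv)
    have h5 := hsub ((univ \ K).erase v) (erase_subset _ _)
    have h6 : ((univ \ K).erase v).card + 1 = (univ \ K).card :=
      card_erase_add_one (hmem v hv)
    rw [← h4, biUnion_insert, card_insert_of_notMem (notMem_erase v _)] at hout
    have h7 := card_union_le (nbs G K v) (((univ \ K).erase v).biUnion fun v => nbs G K v)
    omega
  · intro v hv w hw hvw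
    by_contra hne
    rw [Finset.not_disjoint_iff] at hne
    obtain ⟨x, hxv, hxw⟩ := hne
    have hw' : w ∈ (univ \ K).erase v := mem_erase.mpr ⟨hvw.symm, hmem w hw⟩
    have h4 : insert v ((univ \ K).erase v) = univ \ K := insert_erase (hmem v hv)
    have h4' : insert w (((univ \ K).erase v).erase w) = (univ \ K).erase v := insert_erase hw'
    have h5 := hsub (((univ \ K).erase v).erase w)
      ((erase_subset _ _).trans (erase_subset _ _))
    have h6 : ((univ \ K).erase v).card + 1 = (univ \ K).card :=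
      card_erase_add_one (hmem v hv)
    have h6' : (((univ \ K).erase v).erase w).card + 1 = ((univ \ K).erase v).card :=
      card_erase_add_one hw'
    have e1 := biUnion_insert (s := ((univ \ K).erase v).erase w) (a := w)
      (t := fun v => nbs G K v)
    rw [h4'] at e1
    have e2 := biUnion_insert (s := (univ \ K).erase v) (a := v) (t := fun v => nbs G K v)
    rw [h4] at e2
    rw [e2, e1, ← union_assoc] at hout
    have h7 := card_union_le (nbs G K v ∪ nbs G K w)
      ((((univ \ K).erase v).erase w).biUnion fun v => nbs G K v)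
    have h8 := card_union_add_card_inter (nbs G K v) (nbs G K w)
    have h9 : 0 < (nbs G K v ∩ nbs G K w).card := card_pos.mpr ⟨x, mem_inter.mpr ⟨hxv, hxw⟩⟩
    have h10 := h2 v hv
    have h11 := h2 w hw
    omega

end

/-- a maximal clique of the closure containing all but `s` vertices -/
theorem large_clique (s : ℕ) (hs : 1 ≤ s) : ∃ N : ℕ, ∀ n ≥ N, ∀ G : SimpleGraph (Fin n),
    (nonE G).card < s * n → ∃ K : Finset (Fin n), Mx G K ∧ 5 ≤ K.card ∧ n ≤ K.card + s := by
  classical
  obtain ⟨N, hN⟩ := stD (2 * s) (by omega)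
  set M := 4 * (2 * s) ^ 2 + 2 * (2 * s) with hM
  refine ⟨N + (s + 1) * (M + 2) + M + 5, fun n hn G hG => ?_⟩
  have h0 : 2 * (nonE G).card < 2 * s * n := by
    calc 2 * (nonE G).card < 2 * (s * n) := by omega
      _ = _ := by ring
  obtain ⟨K, hK, hK3, hKn⟩ := hN n (by omega) G h0
  refine ⟨K, hK, by omega, ?_⟩
  by_contra hcon
  push Not at hcon
  have hO : (univ \ K).card = n - K.card := by
    rw [card_sdiff_of_subset (subset_univ _), card_univ, Fintype.card_fin]
  have h1 := out_mul hK hK3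
  have h2 : (s + 1) * (n - (M + 2)) ≤ (nonE G).card :=
    (Nat.mul_le_mul (by omega) (by omega)).trans h1
  obtain ⟨m, hm⟩ : ∃ m, n = m + (M + 2) := ⟨n - (M + 2), by omega⟩
  have h3 : n - (M + 2) = m := by omega
  rw [h3] at h2
  have h4 : (s + 1) * m < s * (m + (M + 2)) := by
    rw [← hm]
    omega
  have h5 : (s + 1) * (M + 2) ≤ n := by omega
  nlinarith

theorem typ_of {n s : ℕ} {G : SimpleGraph (Fin n)} (hG : Independent G)
    (hK : ∃ K : Finset (Fin n), Mx G K ∧ 5 ≤ K.card ∧ n ≤ K.card + s)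
    (hL : ∀ t ∈ Icc 1 s, ¬ ∃ O : Finset (Fin n), O.card = t ∧ Loose G O) :
    ∃ K, Typical s G K := by
  classical
  obtain ⟨K, hM, hK5, hKn⟩ := hK
  have hK3 : 3 ≤ K.card := by omega
  have hO : (univ \ K).card = n - K.card := by
    rw [card_sdiff_of_subset (subset_univ _), card_univ, Fintype.card_fin]
  have hle2 : ∀ v ∉ K, (nbs G K v).card ≤ 2 := fun v hv =>
    (card_le_card (nbs_mono (le_CL G) K v)).trans (stA _ G K hM hK3 v hv)
  have hout : 2 * (univ \ K).card ≤ (outN G (univ \ K)).card := by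
    by_cases he : (univ \ K).card = 0
    · rw [he]
      exact Nat.zero_le _
    · have h1 := hL (univ \ K).card (mem_Icc.mpr ⟨by omega, by omega⟩)
      have h2 : ¬ Loose G (univ \ K) := fun h => h1 ⟨_, rfl, h⟩
      have h3 : (univ \ K).Nonempty := card_pos.mp (by omega)
      by_contra hcon
      exact h2 ⟨h3, by omega⟩
  obtain ⟨hp1, hp2⟩ := private_of hle2 hout
  have hB := stB _ G K hG hM hK3 hp1 hp2
  obtain ⟨p, hp⟩ := exists_generic (Fin n)
  have hth : Thin G (univ \ K) := fun T hT hne =>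
    thin_out hp hM hK3 hp1 hp2 _ T rfl (fun x hx => (mem_sdiff.mp (hT hx)).2) hne
  refine ⟨K, hKn, fun u v => ?_, iso_in hG hM hK3 hle2 hth, thin_acyclic hth, fun v hv => ?_,
    fun v w x hv hw hx hvx hwx => ?_, fun u v h => ?_⟩
  · constructor
    · intro h
      by_cases hadj : G.Adj u v
      · exact Or.inl hadj
      · exact Or.inr ⟨h.1, hB u v ⟨hG, hadj, h⟩⟩
    · rintro (h | ⟨huv, hu, hv⟩)
      · exact le_CL G h
      · exact hM.1 u hu v hv huv
  · rw [← hp1 v hv, ← Set.ncard_coe_finset]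
    congr 1
    ext x
    rw [mem_coe, mem_nbs]
    rfl
  · by_contra hvw
    exact disjoint_left.mp (hp2 v hv w hw hvw) (mem_nbs.mpr ⟨hx, hvx⟩) (mem_nbs.mpr ⟨hx, hwx⟩)
  · obtain ⟨hu, hv⟩ := hB u v h
    have huv : u ≠ v := h.mem.1
    have h1 : ({u, v} : Finset (Fin n)) ⊆ K := by
      intro x hx
      rw [mem_insert, mem_singleton] at hx
      rcases hx with rfl | rfl
      · exact hu
      · exact hv
    obtain ⟨t, ht1, ht2, ht3⟩ := exists_subsuperset_card_eq (n := 5) h1
      (by rw [card_pair huv]; norm_num) hK5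
    exact ⟨t, ht3, ht1 (mem_insert_self _ _), ht1 (mem_insert_of_mem (mem_singleton_self _)),
      fun a ha b hb hab => hM.1 a (ht2 ha) b (ht2 hb) hab⟩

open Classical in
theorem main_finset (s : ℕ) (hs : 1 ≤ s) : ∃ N : ℕ, ∀ n ≥ N,
    s * ((indset n).filter fun G => ¬ ∃ K, Typical s G K).card ≤ 4 * (indset n).card := by
  obtain ⟨N1, hN1⟩ := large_clique s hs
  have hE : ∀ t : ℕ, ∃ (C : ℝ) (N : ℕ), 0 ≤ C ∧ (1 ≤ t → ∀ n ≥ N,
      (((indset n).filter fun G => ∃ O : Finset (Fin n), O.card = t ∧ Loose G O).card : ℝ) * n ≤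
        C * (indset n).card) := by
    intro t
    by_cases ht : 1 ≤ t
    · obtain ⟨C, N, h1, h2⟩ := stE t ht
      exact ⟨C, N, h1, fun _ => h2⟩
    · exact ⟨0, 0, le_rfl, fun h => absurd h ht⟩
  choose C N2 hC hN2 using hE
  set CC := ∑ t ∈ Icc 1 s, C t with hCC
  have hCC0 : 0 ≤ CC := sum_nonneg fun t _ => hC t
  obtain ⟨N3, hN3⟩ := exists_nat_ge (s * CC)
  refine ⟨N1 + (∑ t ∈ Icc 1 s, N2 t) + N3 + 1, fun n hn => ?_⟩
  have hn0 : (0 : ℝ) < n := by
    have : 0 < n := by omega
    exact_mod_cast this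
  have hI0 : (0 : ℝ) ≤ ((indset n).card : ℝ) := Nat.cast_nonneg _
  have hcov : ((indset n).filter fun G => ¬ ∃ K, Typical s G K) ⊆
      ((indset n).filter fun G => s * n ≤ (nonE G).card) ∪
        (Icc 1 s).biUnion fun t => (indset n).filter fun G =>
          ∃ O : Finset (Fin n), O.card = t ∧ Loose G O := by
    intro G hG
    rw [mem_filter] at hG
    rw [mem_union, mem_biUnion]
    by_contra hcon
    push Not at hcon
    obtain ⟨h1, h2⟩ := hcon
    apply hG.2
    apply typ_of (mem_indset.mp hG.1)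
    · apply hN1 n (by omega)
      by_contra h3
      push Not at h3
      exact h1 (mem_filter.mpr ⟨hG.1, h3⟩)
    · intro t ht h3
      exact h2 t ht (mem_filter.mpr ⟨hG.1, h3⟩)
  have hcard : (((indset n).filter fun G => ¬ ∃ K, Typical s G K).card : ℝ) ≤
      (((indset n).filter fun G => s * n ≤ (nonE G).card).card : ℝ) +
        ∑ t ∈ Icc 1 s, (((indset n).filter fun G =>
          ∃ O : Finset (Fin n), O.card = t ∧ Loose G O).card : ℝ) := by
    have h1 := (card_le_card hcov).trans (card_union_le _ _)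
    have h2 := h1.trans (Nat.add_le_add_left card_biUnion_le _)
    exact_mod_cast h2
  have hB1 : (s : ℝ) * (((indset n).filter fun G => s * n ≤ (nonE G).card).card : ℝ) ≤
      3 * (indset n).card := by
    have h1 : ((indset n).filter fun G => s * n ≤ (nonE G).card).card * (s * n) ≤
        3 * n * (indset n).card := by
      calc ((indset n).filter fun G => s * n ≤ (nonE G).card).card * (s * n)
          ≤ ∑ G ∈ (indset n).filter fun G => s * n ≤ (nonE G).card, (nonE G).card := by
            rw [← smul_eq_mul]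
            exact card_nsmul_le_sum _ _ _ fun G hG => (mem_filter.mp hG).2
        _ ≤ ∑ G ∈ indset n, (nonE G).card := sum_le_sum_of_subset (filter_subset _ _)
        _ ≤ _ := stC n
    have h2 : (((indset n).filter fun G => s * n ≤ (nonE G).card).card : ℝ) * (s * n) ≤
        3 * n * (indset n).card := by exact_mod_cast h1
    refine le_of_mul_le_mul_right ?_ hn0
    linarith
  have hB2 : (s : ℝ) * ∑ t ∈ Icc 1 s, (((indset n).filter fun G =>
          ∃ O : Finset (Fin n), O.card = t ∧ Loose G O).card : ℝ) ≤ (indset n).card := by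
    have h1 : (∑ t ∈ Icc 1 s, (((indset n).filter fun G =>
          ∃ O : Finset (Fin n), O.card = t ∧ Loose G O).card : ℝ)) * n ≤
        CC * (indset n).card := by
      rw [sum_mul, hCC, sum_mul]
      apply sum_le_sum
      intro t ht
      refine hN2 t (mem_Icc.mp ht).1 n ?_
      have : N2 t ≤ ∑ t ∈ Icc 1 s, N2 t := single_le_sum (fun _ _ => Nat.zero_le _) ht
      omega
    have h2 : s * CC ≤ (n : ℝ) := hN3.trans (by
      have : N3 ≤ n := by omega
      exact_mod_cast this)
    refine le_of_mul_le_mul_right ?_ hn0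
    have hs0 : (0 : ℝ) ≤ s := Nat.cast_nonneg s
    nlinarith [mul_le_mul_of_nonneg_left h1 hs0, mul_le_mul_of_nonneg_right h2 hI0]
  have hfin : (s : ℝ) * (((indset n).filter fun G => ¬ ∃ K, Typical s G K).card : ℝ) ≤
      4 * (indset n).card := by
    have hs0 : (0 : ℝ) ≤ s := Nat.cast_nonneg s
    have := mul_le_mul_of_nonneg_left hcard hs0
    linarith
  exact_mod_cast hfin

theorem indset_coe (n : ℕ) :
    ((indset n : Finset _) : Set (SimpleGraph (Fin n))) = {G | Independent G} := by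
  ext G
  rw [mem_coe, mem_indset]
  rfl

theorem filter_coe (n : ℕ) (P : SimpleGraph (Fin n) → Prop) [DecidablePred P] :
    (((indset n).filter P : Finset _) : Set (SimpleGraph (Fin n))) =
      {G | Independent G ∧ P G} := by
  ext G
  rw [mem_coe, mem_filter, mem_indset]
  rfl

/-- The typical structure of independent graphs. -/
theorem main (s : ℕ) (hs : 1 ≤ s) : ∃ N : ℕ, ∀ n ≥ N,
    s * {G : SimpleGraph (Fin n) | Independent G ∧ ¬ ∃ K, Typical s G K}.ncard ≤
      4 * {G : SimpleGraph (Fin n) | Independent G}.ncard := by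
  classical
  obtain ⟨N, hN⟩ := main_finset s hs
  refine ⟨N, fun n hn => ?_⟩
  have := hN n hn
  rw [← Set.ncard_coe_finset, ← Set.ncard_coe_finset, indset_coe, filter_coe] at this
  exact this

/-- Almost no independent graph has an implied nonedge in no `K_5` of the closure. -/
theorem almost (ε : ℝ) (hε : 0 < ε) : ∃ N : ℕ, ∀ n ≥ N,
    ({G : SimpleGraph (Fin n) | Independent G ∧ ∃ u v, Implied G u v ∧ ¬ InK5 G u v}.ncard : ℝ) ≤
      ε * {G : SimpleGraph (Fin n) | Independent G}.ncard := by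
  obtain ⟨s0, hs0⟩ := exists_nat_ge (4 / ε)
  obtain ⟨N, hN⟩ := main (s0 + 1) (by omega)
  refine ⟨N, fun n hn => ?_⟩
  have h1 : (((s0 + 1 : ℕ) : ℝ)) *
      ({G : SimpleGraph (Fin n) | Independent G ∧ ¬ ∃ K, Typical (s0 + 1) G K}.ncard : ℝ) ≤
      4 * ({G : SimpleGraph (Fin n) | Independent G}.ncard : ℝ) := by exact_mod_cast hN n hn
  have h2 : {G : SimpleGraph (Fin n) | Independent G ∧ ∃ u v, Implied G u v ∧ ¬ InK5 G u v} ⊆
      {G : SimpleGraph (Fin n) | Independent G ∧ ¬ ∃ K, Typical (s0 + 1) G K} := by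
    rintro G ⟨hG, u, v, h, hn⟩
    exact ⟨hG, fun ⟨K, hK⟩ => hn (hK.implied u v h)⟩
  have h3 : ({G : SimpleGraph (Fin n) | Independent G ∧
      ∃ u v, Implied G u v ∧ ¬ InK5 G u v}.ncard : ℝ) ≤
      ({G : SimpleGraph (Fin n) | Independent G ∧ ¬ ∃ K, Typical (s0 + 1) G K}.ncard : ℝ) := by
    exact_mod_cast Set.ncard_le_ncard h2 (Set.toFinite _)
  refine h3.trans ?_
  set a := ({G : SimpleGraph (Fin n) | Independent G ∧ ¬ ∃ K, Typical (s0 + 1) G K}.ncard : ℝ)
    with ha
  set b := ({G : SimpleGraph (Fin n) | Independent G}.ncard : ℝ) with hb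
  have ha0 : 0 ≤ a := Nat.cast_nonneg _
  have h4 : 4 ≤ ε * ((s0 + 1 : ℕ) : ℝ) := by
    have h5 : 4 / ε ≤ ((s0 + 1 : ℕ) : ℝ) := hs0.trans (by push_cast; linarith)
    rw [div_le_iff₀ hε] at h5
    linarith
  have h6 : 4 * a ≤ ε * ((s0 + 1 : ℕ) : ℝ) * a := mul_le_mul_of_nonneg_right h4 ha0
  have h7 := mul_le_mul_of_nonneg_left h1 hε.le
  linarith

end Pool.Agent.Lib.MP_071ace_co.AA
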