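import Pool.Agent.Lib.MP_071ace_co.AA.Struct
import Pool.Agent.Lib.MP_071ace_co.AA.Count

/-!
# Inside the clique the graph is isostatic, outside it is a forest
-/

set_option autoImplicit false

namespace Pool.Agent.Lib.MP_071ace_co.AA

open Finset Submodule

variable {V : Type} [Fintype V] [DecidableEq V]

theorem ncard_star (v : V) (N : Finset V) : (star v N).ncard = N.card := by
  rw [star, Set.ncard_image_of_injective, Set.ncard_coe_finset]
  intro y z hyz
  exact Sym2.congr_right.mp hyz

theorem pairs_mono {K L : Finset V} (h : K ⊆ L) : pairs K ⊆ pairs L := by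
  rintro _ ⟨a, ha, b, hb, hab, rfl⟩
  exact ⟨a, h ha, b, h hb, hab, rfl⟩

theorem star_pairs {v : V} {N K : Finset V} (hv : v ∉ N) (h : insert v N ⊆ K) :
    star v N ⊆ pairs K := by
  rintro _ ⟨x, hx, rfl⟩
  exact ⟨v, h (mem_insert_self _ _), x, h (mem_insert_of_mem hx), fun e => hv (e ▸ hx), rfl⟩

/-- adding a star of size at most three -/
theorem add_star {p : V → Fin 3 → ℝ} (hp : Generic p) {B : Set (Sym2 V)} {K : Finset V} {v : V}
    {N : Finset V} (hB : Indep B) (hBK : B ⊆ pairs K) (hv : v ∉ K) (hN : N ⊆ K)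
    (hNc : N.card ≤ 3) : Indep (B ∪ star v N) ∧ B ∪ star v N ⊆ pairs (insert v K) ∧
      (B ∪ star v N).ncard = B.ncard + N.card := by
  have hvN : v ∉ N := fun h => hv (hN h)
  have hav : Avoids B v := fun e he => pairs_avoids hv e (hBK he)
  refine ⟨hp.zero_ext hav hB hvN hNc, ?_, ?_⟩
  · apply Set.union_subset
    · exact hBK.trans (pairs_mono (subset_insert _ _))
    · exact star_pairs hvN (insert_subset_insert _ hN)
  · rw [Set.ncard_union_eq _ (Set.toFinite _) (Set.toFinite _), ncard_star]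
    rw [Set.disjoint_left]
    rintro e he ⟨y, _, rfl⟩
    exact hav _ he (Sym2.mem_mk_left _ _)

/-- an independent set with `3 |W| - 6` pairs -/
theorem exists_iso {p : V → Fin 3 → ℝ} (hp : Generic p) (n : ℕ) :
    ∀ W : Finset V, W.card = n + 3 →
      ∃ B : Set (Sym2 V), Indep B ∧ B ⊆ pairs W ∧ B.ncard + 6 = 3 * W.card := by
  classical
  induction n with
  | zero =>
    intro W hW
    obtain ⟨a, b, c, hab, hac, hbc, rfl⟩ := Finset.card_eq_three.mp hW
    have h0 : Indep (∅ : Set (Sym2 V)) := ⟨p, linearIndepOn_empty ℝ (row p)⟩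
    obtain ⟨h1, h2, h3⟩ := add_star hp (K := {a}) (v := b) (N := {a}) h0
      (Set.empty_subset _) (by rw [mem_singleton]; exact hab.symm) subset_rfl
      (by rw [card_singleton]; norm_num)
    obtain ⟨h4, h5, h6⟩ := add_star hp (K := insert b {a}) (v := c) (N := insert b {a}) h1 h2
      (by rw [mem_insert, mem_singleton]; push Not; exact ⟨hbc.symm, hac.symm⟩) subset_rfl
      (by rw [card_pair hab.symm]; norm_num)
    refine ⟨_, h4, h5.trans (pairs_mono ?_), ?_⟩
    · intro x hx
      simp only [mem_insert, mem_singleton] at hx ⊢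
      tauto
    · rw [h6, h3, card_pair hab.symm, card_singleton, Set.ncard_empty, hW]
  | succ n ih =>
    intro W hW
    have hne : W.Nonempty := Finset.card_pos.mp (by omega)
    obtain ⟨v, hv⟩ := hne
    have hv' : v ∉ W.erase v := Finset.notMem_erase v W
    have hc : (W.erase v).card = n + 3 := by
      rw [Finset.card_erase_of_mem hv, hW]; rfl
    obtain ⟨B, h1, h2, h3⟩ := ih _ hc
    obtain ⟨N0, hN0, hN0c⟩ := Finset.exists_subset_card_eq (show 3 ≤ (W.erase v).card by omega)
    obtain ⟨h4, h5, h6⟩ := add_star hp h1 h2 hv' hN0 hN0c.le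
    rw [insert_erase hv] at h5
    exact ⟨_, h4, h5, by omega⟩

/-- the rank of the complete graph -/
theorem rank_pairs_eq {p : V → Fin 3 → ℝ} (hp : Generic p) {K : Finset V} (hK : 3 ≤ K.card) :
    Module.finrank ℝ (span ℝ (row p '' pairs K)) + 6 = 3 * K.card := by
  obtain ⟨n, hn⟩ : ∃ n, K.card = n + 3 := ⟨K.card - 3, by omega⟩
  have h1 := hp.rank_pairs n K hn
  obtain ⟨B, hB, hBK, hBc⟩ := exists_iso hp n K hn
  have h2 := Submodule.finrank_mono (span_mono (R := ℝ) (Set.image_mono (f := row p) hBK))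
  rw [finrank_indep hp hB] at h2
  omega

/-- Over a basis of the clique the remaining edges are independent. -/
theorem thin_indep {p : V → Fin 3 → ℝ} (hp : Generic p) (G : SimpleGraph V) {K : Finset V}
    {B : Set (Sym2 V)} (hB : Indep B) (hBK : B ⊆ pairs K) (hK : K.Nonempty) {S : Finset V}
    (hSK : ∀ x ∈ S, x ∉ K) (hdeg : ∀ x ∈ S, (nbs G K x).card ≤ 2) (hth : Thin G S) :
    Indep (B ∪ EE G K S) := by
  by_cases hS : S.Nonempty
  · obtain ⟨a, ha⟩ := hS
    obtain ⟨z, hz⟩ := hK
    exact (ext_thin hp G hB hBK (a := a) hz _ S rfl hSK hdeg hth ha).mono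
      (Set.subset_insert _ _)
  · rw [not_nonempty_iff_eq_empty] at hS
    rw [hS, EE_empty, Set.union_empty]
    exact hB

theorem split_edges (G : SimpleGraph V) (K : Finset V) :
    G.edgeSet = (within G K).edgeSet ∪ EE G K (univ \ K) := by
  ext e
  induction e using Sym2.ind with
  | _ a b =>
    have hor : ∀ y : V, y ∈ univ \ K ∨ y ∈ K := by
      intro y
      by_cases hy : y ∈ K
      · exact Or.inr hy
      · exact Or.inl (mem_sdiff.mpr ⟨mem_univ _, hy⟩)
    constructor
    · intro h
      have hab : G.Adj a b := h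
      by_cases ha : a ∈ K
      · by_cases hb : b ∈ K
        · exact Or.inl ⟨ha, hb, hab⟩
        · exact Or.inr ⟨h, ⟨b, mem_sdiff.mpr ⟨mem_univ _, hb⟩, Sym2.mem_mk_right _ _⟩,
            fun y _ => hor y⟩
      · exact Or.inr ⟨h, ⟨a, mem_sdiff.mpr ⟨mem_univ _, ha⟩, Sym2.mem_mk_left _ _⟩,
          fun y _ => hor y⟩
    · rintro (h | h)
      · exact h.2.2
      · exact h.1

/-- The graph inside the clique is isostatic. -/
theorem iso_in {G : SimpleGraph V} {K : Finset V} (hG : Independent G) (hM : Mx G K)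
    (hK : 3 ≤ K.card) (h2 : ∀ v ∉ K, (nbs G K v).card ≤ 2) (hth : Thin G (univ \ K)) :
    (within G K).edgeSet.ncard + 6 = 3 * K.card := by
  classical
  obtain ⟨p, hp⟩ := exists_generic V
  obtain ⟨B, hB, hBK, hBs⟩ := exists_base p K
  have hI : Indep (B ∪ EE G K (univ \ K)) :=
    thin_indep hp G hB hBK (card_pos.mp (by omega)) (fun x hx => (mem_sdiff.mp hx).2)
      (fun x hx => h2 x (mem_sdiff.mp hx).2) hth
  have hdis : Disjoint B (EE G K (univ \ K)) := by
    rw [Set.disjoint_left]
    rintro e he ⟨_, ⟨x, hx, hxe⟩, _⟩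
    exact pairs_avoids (mem_sdiff.mp hx).2 e (hBK he) hxe
  have hdis2 : Disjoint (within G K).edgeSet (EE G K (univ \ K)) := by
    rw [Set.disjoint_left]
    intro e he h
    obtain ⟨_, ⟨x, hx, hxe⟩, _⟩ := h
    obtain ⟨y, rfl⟩ := Sym2.mem_iff_exists.mp hxe
    exact (mem_sdiff.mp hx).2 (by exact_mod_cast he.1)
  have hspan : span ℝ (row p '' G.edgeSet) = span ℝ (row p '' (B ∪ EE G K (univ \ K))) := by
    apply le_antisymm
    · rw [span_le]
      rintro _ ⟨e, he, rfl⟩
      rw [split_edges G K] at he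
      rcases he with he | he
      · have heK : e ∈ pairs K := by
          induction e using Sym2.ind with
          | _ a b =>
            obtain ⟨ha, hb, hab⟩ := he
            exact ⟨a, by exact_mod_cast ha, b, by exact_mod_cast hb, hab.ne, rfl⟩
        have h14 : row p e ∈ span ℝ (row p '' B) := by
          rw [hBs]
          exact subset_span ⟨e, heK, rfl⟩
        exact span_mono (Set.image_mono Set.subset_union_left) h14
      · exact subset_span ⟨e, Or.inr he, rfl⟩
    · rw [span_le]
      rintro _ ⟨e, he | he, rfl⟩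
      · exact rig_pairs hp hM.1 ⟨e, hBK he, rfl⟩
      · exact subset_span ⟨e, he.1, rfl⟩
  have h3 := finrank_indep hp hG
  rw [hspan, finrank_indep hp hI, Set.ncard_union_eq hdis (Set.toFinite _) (Set.toFinite _)] at h3
  have h4 : G.edgeSet.ncard = (within G K).edgeSet.ncard + (EE G K (univ \ K)).ncard := by
    conv_lhs => rw [split_edges G K]
    exact Set.ncard_union_eq hdis2 (Set.toFinite _) (Set.toFinite _)
  have h5 := rank_pairs_eq hp hK
  rw [← hBs, finrank_indep hp hB] at h5
  omega

/-- The graph outside the clique is a forest. -/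
theorem thin_acyclic {G : SimpleGraph V} {K : Finset V} (hth : Thin G (univ \ K)) :
    (G.induce {v | v ∉ K}).IsAcyclic := by
  classical
  intro w c hc
  set T : Finset V := c.support.toFinset.image Subtype.val with hT
  have hTK : T ⊆ univ \ K := by
    intro x hx
    rw [hT, mem_image] at hx
    obtain ⟨y, _, rfl⟩ := hx
    exact mem_sdiff.mpr ⟨mem_univ _, y.2⟩
  have hne : T.Nonempty := by
    refine ⟨w.1, mem_image.mpr ⟨w, ?_, rfl⟩⟩
    rw [List.mem_toFinset]
    exact c.start_mem_support
  obtain ⟨x, hx, hdx⟩ := hth T hTK hne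
  rw [hT, mem_image] at hx
  obtain ⟨y, hy, rfl⟩ := hx
  rw [List.mem_toFinset] at hy
  have h1 := hc.ncard_neighborSet_toSubgraph_eq_two hy
  have h2 : Subtype.val '' (c.toSubgraph.neighborSet y) ⊆ (nbs G T y.1 : Set V) := by
    rintro _ ⟨z, hz, rfl⟩
    have hz' : c.toSubgraph.Adj y z := hz
    rw [mem_coe, mem_nbs]
    refine ⟨mem_image.mpr ⟨z, ?_, rfl⟩, ?_⟩
    · rw [List.mem_toFinset, ← SimpleGraph.Walk.mem_verts_toSubgraph]
      exact hz'.symm.fst_mem
    · exact hz'.adj_sub
  have h3 := Set.ncard_le_ncard h2 (Set.toFinite _)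
  rw [Set.ncard_image_of_injective _ Subtype.val_injective, h1, Set.ncard_coe_finset] at h3
  omega

end Pool.Agent.Lib.MP_071ace_co.AA
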