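import Pool.Agent.Lib.MP_071ace_co.AA.Defs

/-!
# A vertex outside a maximal clique of the closure has at most two neighbours in it
-/

set_option autoImplicit false

namespace Pool.Agent.Lib.MP_071ace_co.AA

open Finset Submodule

variable {V : Type} [Fintype V] [DecidableEq V]

theorem mem_nbs {G : SimpleGraph V} {T : Finset V} {x y : V} :
    y ∈ nbs G T x ↔ y ∈ T ∧ G.Adj x y := by
  classical
  simp [nbs]

theorem rig_pairs {p : V → Fin 3 → ℝ} (hp : Generic p) {G : SimpleGraph V} {K : Finset V}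
    (h : Cq G K) : row p '' pairs K ⊆ span ℝ (row p '' G.edgeSet) := by
  rintro _ ⟨_, ⟨a, ha, b, hb, hab, rfl⟩, rfl⟩
  exact ((mem_CL hp).mp (h a ha b hb hab)).2

theorem stA : StA := by
  classical
  intro V _ _ G K hM hK v hv
  obtain ⟨p, hp⟩ := exists_generic V
  by_contra hcon
  obtain ⟨N0, hN0, hN0c⟩ := Finset.exists_subset_card_eq (show 3 ≤ (nbs (CL G) K v).card by omega)
  have hN0K : N0 ⊆ K := fun x hx => (mem_nbs.mp (hN0 hx)).1
  have h1 := hp.star_le (v := v) hv hN0K hN0c (rig_pairs hp hM.1)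
  have h2 : span ℝ (row p '' star v N0) ≤ span ℝ (row p '' G.edgeSet) := by
    rw [span_le]
    rintro _ ⟨_, ⟨x, hx, rfl⟩, rfl⟩
    exact ((mem_CL hp).mp (mem_nbs.mp (hN0 hx)).2).2
  obtain ⟨x, hx, hadj⟩ := hM.2 v hv
  apply hadj
  rw [mem_CL hp]
  refine ⟨fun e => hv (e ▸ hx), ?_⟩
  have h3 := h1 (subset_span ⟨_, ⟨x, hx, rfl⟩, rfl⟩)
  rwa [sup_eq_left.mpr h2] at h3

end Pool.Agent.Lib.MP_071ace_co.AA
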