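import Pool.Agent.Lib.MP_071ace_co.AA.Thin

/-!
# The structure outside a maximal clique of the closure
-/

set_option autoImplicit false

namespace Pool.Agent.Lib.MP_071ace_co.AA

open Finset Submodule

variable {V : Type} [Fintype V] [DecidableEq V]

/-- the number of edges between `S` and `S ∪ K` -/
theorem ncard_EE (G : SimpleGraph V) (K S : Finset V) : (∀ x ∈ S, x ∉ K) →
    2 * (EE G K S).ncard = sm G S + 2 * ∑ x ∈ S, (nbs G K x).card := by
  classical
  induction S using Finset.induction_on with
  | empty =>
    intro _
    rw [EE_empty]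
    simp [sm]
  | insert x S hx ih =>
    intro hSK
    have hxK := hSK x (mem_insert_self _ _)
    have ih' := ih fun y hy => hSK y (mem_insert_of_mem hy)
    rw [EE_insert G hx hxK, sm_insert G hx, sum_insert hx]
    have hdis : Disjoint (EE G K S) (star x (nbs G (S ∪ K) x)) := by
      rw [Set.disjoint_left]
      rintro e he ⟨y, _, rfl⟩
      exact EE_avoids G hx hxK _ he (Sym2.mem_mk_left _ _)
    rw [Set.ncard_union_eq hdis (Set.toFinite _) (Set.toFinite _)]
    have hst : (star x (nbs G (S ∪ K) x)).ncard = (nbs G (S ∪ K) x).card := by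
      rw [star, Set.ncard_image_of_injective, Set.ncard_coe_finset]
      intro y z hyz
      exact Sym2.congr_right.mp hyz
    have hun : (nbs G (S ∪ K) x).card = (nbs G S x).card + (nbs G K x).card := by
      have h1 : nbs G (S ∪ K) x = nbs G S x ∪ nbs G K x := by
        ext y
        rw [mem_nbs, mem_union, mem_union, mem_nbs, mem_nbs]
        tauto
      rw [h1, card_union_of_disjoint]
      rw [disjoint_left]
      intro y hy hy2
      exact hSK y (mem_insert_of_mem (mem_nbs.mp hy).1) (mem_nbs.mp hy2).1
    rw [hst, hun]
    omega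

/-- adding vertices to a clique increases the rank by at most three for each -/
theorem rank_union {p : V → Fin 3 → ℝ} (hp : Generic p) {K : Finset V} (hK : 3 ≤ K.card)
    (S : Finset V) : (∀ x ∈ S, x ∉ K) →
    Module.finrank ℝ (span ℝ (row p '' pairs (S ∪ K))) ≤
      Module.finrank ℝ (span ℝ (row p '' pairs K)) + 3 * S.card := by
  classical
  induction S using Finset.induction_on with
  | empty =>
    intro _
    rw [empty_union, card_empty]
    omega
  | insert x S hx ih =>
    intro hSK
    have ih' := ih fun y hy => hSK y (mem_insert_of_mem hy)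
    have hxu : x ∉ S ∪ K := by
      rw [mem_union, not_or]
      exact ⟨hx, hSK x (mem_insert_self _ _)⟩
    have hcard : 3 ≤ (S ∪ K).card := hK.trans (card_le_card subset_union_right)
    obtain ⟨N0, hN0, hN0c⟩ := Finset.exists_subset_card_eq hcard
    have h2 : span ℝ (row p '' pairs (insert x S ∪ K)) ≤
        span ℝ (row p '' pairs (S ∪ K)) ⊔ span ℝ (row p '' star x N0) := by
      rw [insert_union, pairs_insert x _ hxu, Set.image_union, span_union]
      exact sup_le le_sup_left (hp.star_le hxu hN0 hN0c subset_span)
    have h3 := Submodule.finrank_mono h2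
    have h4 := Submodule.finrank_add_le_finrank_add_finrank
      (span ℝ (row p '' pairs (S ∪ K))) (span ℝ (row p '' star x N0))
    have h5 := finrank_star_le p x N0
    rw [card_insert_of_notMem hx]
    omega

/-- a base of the clique -/
theorem exists_base (p : V → Fin 3 → ℝ) (K : Finset V) : ∃ B : Set (Sym2 V), Indep B ∧
    B ⊆ pairs K ∧ span ℝ (row p '' B) = span ℝ (row p '' pairs K) := by
  obtain ⟨F, hF1, -, hF3, hF4⟩ := exists_linearIndepOn_extension
    (K := ℝ) (v := row p) (s := ∅) (t := pairs K) (linearIndepOn_empty ℝ (row p))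
    (Set.empty_subset _)
  exact ⟨F, ⟨p, hF4⟩, hF1, le_antisymm (span_mono (Set.image_mono hF1)) (span_le.mpr hF3)⟩

theorem EE_subset_edgeSet (G : SimpleGraph V) (K S : Finset V) : EE G K S ⊆ G.edgeSet :=
  fun _ he => he.1

theorem EE_subset_pairs (G : SimpleGraph V) (K S : Finset V) : EE G K S ⊆ pairs (S ∪ K) := by
  intro e he
  induction e using Sym2.ind with
  | _ a b =>
    obtain ⟨h1, _, h3⟩ := he
    have hab : G.Adj a b := h1
    refine ⟨a, ?_, b, ?_, hab.ne, rfl⟩
    · exact mem_union.mpr (h3 a (Sym2.mem_mk_left _ _))
    · exact mem_union.mpr (h3 b (Sym2.mem_mk_right _ _))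

/-- the vertices outside the maximal clique form a thin set -/
theorem thin_out {p : V → Fin 3 → ℝ} (hp : Generic p) {G : SimpleGraph V} {K : Finset V}
    (hM : Mx G K) (hK : 3 ≤ K.card) (h2 : ∀ v ∉ K, (nbs G K v).card = 2)
    (hd : ∀ v ∉ K, ∀ w ∉ K, v ≠ w → Disjoint (nbs G K v) (nbs G K w)) (n : ℕ) :
    ∀ T : Finset V, T.card = n → (∀ x ∈ T, x ∉ K) → T.Nonempty →
      ∃ x ∈ T, (nbs G T x).card ≤ 1 := by
  classical
  induction n using Nat.strong_induction_on with
  | _ n ih =>
    intro T hT hTK hne
    by_contra hcon
    push Not at hcon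
    -- proper subsets are thin
    have hth : ∀ x ∈ T, Thin G (T.erase x) := by
      intro x hx U hU hUne
      have hlt : U.card < n := by
        rw [← hT]
        exact (card_le_card hU).trans_lt (card_erase_lt_of_mem hx)
      exact ih _ hlt U rfl (fun y hy => hTK y (mem_of_mem_erase (hU hy))) hUne
    obtain ⟨x0, hx0⟩ := hne
    have hc0 := hcon x0 hx0
    have hne1 : (T.erase x0).Nonempty := by
      have : (nbs G T x0).Nonempty := card_pos.mp (by omega)
      obtain ⟨w, hw⟩ := this
      rw [mem_nbs] at hw
      exact ⟨w, mem_erase.mpr ⟨hw.2.ne', hw.1⟩⟩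
    obtain ⟨y, hy, hdy⟩ := hth x0 hx0 (T.erase x0) subset_rfl hne1
    have hyT := mem_of_mem_erase hy
    have hyx : y ≠ x0 := ne_of_mem_erase hy
    have h3 := card_nbs_insert G (notMem_erase x0 T) y
    rw [insert_erase hx0] at h3
    have hcy := hcon y hyT
    have hadj : G.Adj y x0 := by
      by_contra h
      rw [if_neg h] at h3
      omega
    rw [if_pos hadj] at h3
    have hdy2 : (nbs G T y).card = 2 := by omega
    -- the number of edges
    have hye := notMem_erase y T
    have h4 := sm_insert G hye
    have h5 := card_nbs_self G hye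
    rw [insert_erase hyT] at h4 h5
    have hneT' : (T.erase y).Nonempty := ⟨x0, mem_erase.mpr ⟨hyx.symm, hx0⟩⟩
    have h6 := Thin.sum _ (T.erase y) rfl (hth y hyT) hneT'
    have h7 : 2 * T.card ≤ sm G T := by
      have : ∑ x ∈ T, 2 ≤ sm G T := sum_le_sum fun x hx => hcon x hx
      rw [sum_const, smul_eq_mul] at this
      omega
    have h8 : (T.erase y).card + 1 = T.card := card_erase_add_one hyT
    have hsm : sm G T = 2 * T.card := by omega
    have hsum : ∑ x ∈ T, (nbs G K x).card = 2 * T.card := by
      rw [sum_congr rfl fun x hx => h2 x (hTK x hx), sum_const, smul_eq_mul, mul_comm]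
    have hEE : (EE G K T).ncard = 3 * T.card := by
      have := ncard_EE G K T hTK
      rw [hsum, hsm] at this
      omega
    -- independence
    obtain ⟨B, hB, hBK, hBs⟩ := exists_base p K
    have hzne : (nbs G K y).Nonempty := card_pos.mp (by rw [h2 y (hTK y hyT)]; norm_num)
    obtain ⟨z, hz⟩ := hzne
    have hzK := (mem_nbs.mp hz).1
    have hyz := (mem_nbs.mp hz).2
    have hxz : ¬ G.Adj x0 z := by
      intro h
      exact disjoint_left.mp (hd y (hTK y hyT) x0 (hTK x0 hx0) hyx) hz
        (mem_nbs.mpr ⟨hzK, h⟩)
    have hI : Indep (B ∪ EE G K T) :=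
      ext_cycle hp G hB hBK hyT hTK (fun x hx => (h2 x (hTK x hx)).le) hdy2.le (hth y hyT)
        hx0 hadj hzK hyz hxz
    have hdis : Disjoint B (EE G K T) := by
      rw [Set.disjoint_left]
      rintro e he ⟨_, ⟨x, hx, hxe⟩, _⟩
      exact pairs_avoids (hTK x hx) e (hBK he) hxe
    have hrank : Module.finrank ℝ (span ℝ (row p '' (B ∪ EE G K T))) =
        B.ncard + 3 * T.card := by
      rw [finrank_indep hp hI, Set.ncard_union_eq hdis (Set.toFinite _) (Set.toFinite _), hEE]
    have hrB : Module.finrank ℝ (span ℝ (row p '' pairs K)) = B.ncard := by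
      rw [← hBs, finrank_indep hp hB]
    have hle := rank_union hp hK T hTK
    have hsub : span ℝ (row p '' (B ∪ EE G K T)) ≤ span ℝ (row p '' pairs (T ∪ K)) := by
      apply span_mono
      apply Set.image_mono
      rintro e (he | he)
      · obtain ⟨a, ha, b, hb, hab, rfl⟩ := hBK he
        exact ⟨a, mem_union_right _ ha, b, mem_union_right _ hb, hab, rfl⟩
      · exact EE_subset_pairs G K T he
    have heq : span ℝ (row p '' (B ∪ EE G K T)) = span ℝ (row p '' pairs (T ∪ K)) :=
      Submodule.eq_of_le_of_finrank_le hsub (by rw [hrank, ← hrB]; exact hle)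
    -- so the clique is not maximal
    obtain ⟨x, hx, hnadj⟩ := hM.2 x0 (hTK x0 hx0)
    apply hnadj
    have hx0x : x0 ≠ x := fun e => hTK x0 hx0 (e ▸ hx)
    rw [mem_CL hp]
    refine ⟨hx0x, ?_⟩
    have h9 : row p s(x0, x) ∈ span ℝ (row p '' (B ∪ EE G K T)) := by
      rw [heq]
      exact subset_span ⟨_, ⟨x0, mem_union_left _ hx0, x, mem_union_right _ hx, hx0x, rfl⟩, rfl⟩
    refine (span_le (p := span ℝ (row p '' G.edgeSet))).mpr ?_ h9
    rintro _ ⟨e, he | he, rfl⟩
    · exact rig_pairs hp hM.1 ⟨e, hBK he, rfl⟩
    · exact subset_span ⟨e, he.1, rfl⟩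

theorem stB : StB := by
  classical
  intro V _ _ G K hG hM hK h2 hd
  obtain ⟨p, hp⟩ := exists_generic V
  have hthin : Thin G (univ \ K) := by
    intro T hT hne
    exact thin_out hp hM hK h2 hd _ T rfl (fun x hx => (mem_sdiff.mp (hT hx)).2) hne
  have hA := stA V G K hM hK
  -- an end outside `K` forces the other end outside `K`
  have hout : ∀ u v, Implied G u v → u ∉ K → v ∉ K := by
    intro u v h hu hv
    have h3 := hA u hu
    have h4 : insert v (nbs G K u) ⊆ nbs (CL G) K u := by
      intro x hx
      rw [mem_insert] at hx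
      rcases hx with rfl | hx
      · exact mem_nbs.mpr ⟨hv, h.mem⟩
      · rw [mem_nbs] at hx ⊢
        refine ⟨hx.1, ?_⟩
        rw [mem_CL hp]
        exact ⟨hx.2.ne, subset_span ⟨_, hx.2, rfl⟩⟩
    have h5 := card_le_card h4
    rw [card_insert_of_notMem (fun hh => h.nadj (mem_nbs.mp hh).2), h2 u hu] at h5
    omega
  -- no implied nonedge outside `K`
  have hin : ∀ u v, Implied G u v → u ∈ K := by
    intro u v h
    by_contra hu
    have hv := hout u v h hu
    have huv : u ≠ v := h.mem.1
    obtain ⟨B, hB, hBK, hBs⟩ := exists_base p K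
    set Γ := G ⊔ SimpleGraph.edge u v with hΓ
    have hΓadj : ∀ x y, Γ.Adj x y ↔ G.Adj x y ∨ ((x = u ∧ y = v) ∨ (x = v ∧ y = u)) := by
      intro x y
      rw [hΓ, SimpleGraph.sup_adj, SimpleGraph.edge_adj]
      constructor
      · rintro (h | h)
        · exact Or.inl h
        · exact Or.inr h.1
      · rintro (h | h)
        · exact Or.inl h
        · refine Or.inr ⟨h, ?_⟩
          rcases h with ⟨rfl, rfl⟩ | ⟨rfl, rfl⟩
          · exact huv
          · exact huv.symm
    have hnK : ∀ x ∉ K, nbs Γ K x = nbs G K x := by
      intro x hx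
      ext y
      rw [mem_nbs, mem_nbs, hΓadj]
      constructor
      · rintro ⟨hy, h | ⟨_, rfl⟩ | ⟨_, rfl⟩⟩
        · exact ⟨hy, h⟩
        · exact absurd hy hv
        · exact absurd hy hu
      · rintro ⟨hy, h⟩
        exact ⟨hy, Or.inl h⟩
    -- on sets which do not contain both ends the graphs agree
    have hagree : ∀ S : Finset V, ¬ (u ∈ S ∧ v ∈ S) → ∀ x ∈ S, nbs Γ S x = nbs G S x := by
      intro S hS x hx
      ext y
      rw [mem_nbs, mem_nbs, hΓadj]
      constructor
      · rintro ⟨hy, h | ⟨rfl, rfl⟩ | ⟨rfl, rfl⟩⟩
        · exact ⟨hy, h⟩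
        · exact absurd ⟨hx, hy⟩ hS
        · exact absurd ⟨hy, hx⟩ hS
      · rintro ⟨hy, h⟩
        exact ⟨hy, Or.inl h⟩
    have hthΓ : ∀ S : Finset V, (∀ x ∈ S, x ∉ K) → ¬ (u ∈ S ∧ v ∈ S) → Thin Γ S := by
      intro S hSK hS T hT hne
      obtain ⟨x, hx, hdx⟩ := hthin T
        (fun y hy => mem_sdiff.mpr ⟨mem_univ _, hSK y (hT hy)⟩) hne
      refine ⟨x, hx, ?_⟩
      rw [hagree T (fun h => hS ⟨hT h.1, hT h.2⟩) x hx]
      exact hdx
    have key : ∀ n : ℕ, ∀ S : Finset V, S.card = n → (∀ x ∈ S, x ∉ K) →
        Indep (B ∪ EE Γ K S) := by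
      intro n
      induction n with
      | zero =>
        intro S hS _
        rw [card_eq_zero] at hS
        rw [hS, EE_empty, Set.union_empty]
        exact hB
      | succ n ih =>
        intro S hS hSK
        have hdeg : ∀ x ∈ S, (nbs Γ K x).card ≤ 2 := fun x hx => by
          rw [hnK x (hSK x hx)]
          exact (h2 x (hSK x hx)).le
        by_cases hex : ∃ x ∈ S, (nbs Γ S x).card ≤ 1
        · obtain ⟨x, hx, hdx⟩ := hex
          have hxe := notMem_erase x S
          have hc : (S.erase x).card = n := by rw [card_erase_of_mem hx, hS]; rfl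
          have h1 := ih (S.erase x) hc fun y hy => hSK y (mem_of_mem_erase hy)
          have hxK := hSK x hx
          have h3 := EE_insert Γ hxe hxK
          have h4 := card_nbs_self Γ hxe
          rw [insert_erase hx] at h3 h4
          have h5 := card_nbs_union Γ (S := S.erase x) (K := K) x
          have h6 := hdeg x hx
          have hav : Avoids (B ∪ EE Γ K (S.erase x)) x := by
            rintro e (he | he)
            · exact pairs_avoids hxK e (hBK he)
            · exact EE_avoids Γ hxe hxK e he
          have h7 := hp.zero_ext hav h1 (not_mem_nbs Γ (S.erase x ∪ K) x) (by omega)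
          rw [h3, ← Set.union_assoc]
          exact h7
        · push Not at hex
          have hSne : S.Nonempty := card_pos.mp (by omega)
          have hboth : u ∈ S ∧ v ∈ S := by
            by_contra hb
            obtain ⟨x, hx, hdx⟩ := hthΓ S hSK hb S subset_rfl hSne
            have := hex x hx
            omega
          have hth1 : Thin Γ (S.erase u) :=
            hthΓ _ (fun x hx => hSK x (mem_of_mem_erase hx))
              (fun h => notMem_erase u S h.1)
          have hue := notMem_erase u S
          have h3 := sm_insert Γ hue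
          have h4 := card_nbs_self Γ hue
          rw [insert_erase hboth.1] at h3 h4
          have hne1 : (S.erase u).Nonempty := ⟨v, mem_erase.mpr ⟨huv.symm, hboth.2⟩⟩
          -- the degree sum of `G` on `S`
          have hthG : Thin G S := fun T hT hne => hthin T
            (fun y hy => mem_sdiff.mpr ⟨mem_univ _, hSK y (hT hy)⟩) hne
          have h5 := Thin.sum _ S rfl hthG hSne
          have h6 : sm Γ S ≤ sm G S + 2 := by
            have h7 : ∀ x ∈ S, (nbs Γ S x).card ≤ (nbs G S x).card +
                ((if x = u then 1 else 0) + if x = v then 1 else 0) := by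
              intro x hx
              by_cases hxu : x = u
              · have hsub : nbs Γ S x ⊆ insert v (nbs G S x) := by
                  intro y hy
                  rw [mem_nbs, hΓadj] at hy
                  rw [mem_insert, mem_nbs]
                  rcases hy with ⟨hy, h | ⟨_, rfl⟩ | ⟨h, _⟩⟩
                  · exact Or.inr ⟨hy, h⟩
                  · exact Or.inl rfl
                  · exact absurd (hxu.symm.trans h) huv
                have h8 := (card_le_card hsub).trans (card_insert_le _ _)
                rw [if_pos hxu]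
                omega
              · by_cases hxv : x = v
                · have hsub : nbs Γ S x ⊆ insert u (nbs G S x) := by
                    intro y hy
                    rw [mem_nbs, hΓadj] at hy
                    rw [mem_insert, mem_nbs]
                    rcases hy with ⟨hy, h | ⟨h, _⟩ | ⟨_, rfl⟩⟩
                    · exact Or.inr ⟨hy, h⟩
                    · exact absurd h hxu
                    · exact Or.inl rfl
                  have h8 := (card_le_card hsub).trans (card_insert_le _ _)
                  rw [if_pos hxv]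
                  omega
                · have hsub : nbs Γ S x ⊆ nbs G S x := by
                    intro y hy
                    rw [mem_nbs, hΓadj] at hy
                    rw [mem_nbs]
                    rcases hy with ⟨hy, h | ⟨h, _⟩ | ⟨h, _⟩⟩
                    · exact ⟨hy, h⟩
                    · exact absurd h hxu
                    · exact absurd h hxv
                  have h8 := card_le_card hsub
                  omega
            have h8 := sum_le_sum h7
            rw [sum_add_distrib, sum_add_distrib, sum_ite_eq', sum_ite_eq', if_pos hboth.1,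
              if_pos hboth.2] at h8
            exact h8
          have h9 : (nbs Γ S u).card + 2 * (S.erase u).card ≤ sm Γ S := by
            have h10 : sm Γ S = (nbs Γ S u).card + ∑ x ∈ S.erase u, (nbs Γ S x).card := by
              unfold sm
              rw [← sum_erase_add _ _ hboth.1, add_comm]
            have h11 : ∑ x ∈ S.erase u, 2 ≤ ∑ x ∈ S.erase u, (nbs Γ S x).card :=
              sum_le_sum fun x hx => hex x (mem_of_mem_erase hx)
            rw [sum_const, smul_eq_mul] at h11
            omega
          have h12 : (S.erase u).card + 1 = S.card := card_erase_add_one hboth.1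
          have hdu : (nbs Γ S u).card ≤ 2 := by omega
          -- a neighbour of `u` in `G`
          have hau : ∃ a ∈ S, G.Adj u a := by
            by_contra hcon
            push Not at hcon
            have hsub : nbs Γ S u ⊆ {v} := by
              intro y hy
              rw [mem_nbs, hΓadj] at hy
              rw [mem_singleton]
              rcases hy with ⟨hy, h | ⟨_, h⟩ | ⟨h, _⟩⟩
              · exact absurd h (hcon y hy)
              · exact h
              · exact absurd h huv
            have h13 := card_le_card hsub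
            rw [card_singleton] at h13
            have := hex u hboth.1
            omega
          obtain ⟨a, ha, hua⟩ := hau
          have hzne : (nbs G K u).Nonempty := card_pos.mp (by rw [h2 u hu]; norm_num)
          obtain ⟨z, hz⟩ := hzne
          have hzK := (mem_nbs.mp hz).1
          have haz : ¬ Γ.Adj a z := by
            rw [hΓadj]
            rintro (h | ⟨_, rfl⟩ | ⟨_, rfl⟩)
            · exact disjoint_left.mp (hd u hu a (hSK a ha) hua.ne) hz (mem_nbs.mpr ⟨hzK, h⟩)
            · exact hv hzK
            · exact hu hzK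
          exact ext_cycle hp Γ hB hBK hboth.1 hSK hdeg hdu hth1 ha ((hΓadj u a).mpr (Or.inl hua))
            hzK ((hΓadj u z).mpr (Or.inl (mem_nbs.mp hz).2)) haz
    have hI := key _ (univ \ K) rfl fun x hx => (mem_sdiff.mp hx).2
    -- the nonedge is not in the span
    have hfE : s(u, v) ∈ EE Γ K (univ \ K) := by
      refine ⟨(hΓadj u v).mpr (Or.inr (Or.inl ⟨rfl, rfl⟩)), ⟨u, ?_, Sym2.mem_mk_left _ _⟩, ?_⟩
      · exact mem_sdiff.mpr ⟨mem_univ _, hu⟩
      · intro y _
        by_cases hy : y ∈ K
        · exact Or.inr hy
        · exact Or.inl (mem_sdiff.mpr ⟨mem_univ _, hy⟩)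
    have hsubs : insert s(u, v) (B ∪ EE G K (univ \ K)) ⊆ B ∪ EE Γ K (univ \ K) := by
      rintro e (rfl | he | he)
      · exact Or.inr hfE
      · exact Or.inl he
      · refine Or.inr ⟨?_, he.2⟩
        have hle : G ≤ Γ := le_sup_left
        exact SimpleGraph.edgeSet_subset_edgeSet.mpr hle he.1
    have hI2 := hI.mono hsubs
    have hfn : s(u, v) ∉ B ∪ EE G K (univ \ K) := by
      rintro (h1 | h1)
      · exact pairs_avoids hu _ (hBK h1) (Sym2.mem_mk_left _ _)
      · exact h.nadj h1.1
    have hnot := (hp.indep_insert_iff (hI2.mono (Set.subset_insert _ _)) hfn).mp hI2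
    apply hnot
    have hrow := ((mem_CL hp).mp h.mem).2
    refine (span_le (p := span ℝ (row p '' (B ∪ EE G K (univ \ K))))).mpr ?_ hrow
    rintro _ ⟨e, he, rfl⟩
    by_cases hmeet : ∃ x ∈ univ \ K, x ∈ e
    · refine subset_span ⟨e, Or.inr ⟨he, hmeet, fun y _ => ?_⟩, rfl⟩
      by_cases hy : y ∈ K
      · exact Or.inr hy
      · exact Or.inl (mem_sdiff.mpr ⟨mem_univ _, hy⟩)
    · push Not at hmeet
      have heK : e ∈ pairs K := by
        induction e using Sym2.ind with
        | _ a b =>
          have hab : G.Adj a b := he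
          have hmem : ∀ x, x ∈ s(a, b) → x ∈ K := by
            intro x hx
            by_contra hxK
            exact hmeet x (mem_sdiff.mpr ⟨mem_univ _, hxK⟩) hx
          exact ⟨a, hmem a (Sym2.mem_mk_left _ _), b, hmem b (Sym2.mem_mk_right _ _), hab.ne, rfl⟩
      have h14 : row p e ∈ span ℝ (row p '' B) := by
        rw [hBs]
        exact subset_span ⟨e, heK, rfl⟩
      exact span_mono (Set.image_mono Set.subset_union_left) h14
  intro u v h
  refine ⟨hin u v h, hin v u ⟨h.indep, fun h' => h.nadj h'.symm, h.mem.symm⟩⟩

end Pool.Agent.Lib.MP_071ace_co.AA
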