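import Pool.Agent.Lib.MP_071ace_co.AA.Rig

/-!
# Thin sets and extensions over a clique
-/

set_option autoImplicit false

namespace Pool.Agent.Lib.MP_071ace_co.AA

open Finset Submodule

variable {V : Type} [Fintype V] [DecidableEq V]

/-- the sum of the degrees in `T` -/
noncomputable def sm (G : SimpleGraph V) (T : Finset V) : ℕ := ∑ x ∈ T, (nbs G T x).card

/-- every nonempty subset has a vertex with at most one neighbour in it -/
def Thin (G : SimpleGraph V) (S : Finset V) : Prop :=
  ∀ T ⊆ S, T.Nonempty → ∃ x ∈ T, (nbs G T x).card ≤ 1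

theorem Thin.mono {G : SimpleGraph V} {S T : Finset V} (h : Thin G S) (hT : T ⊆ S) : Thin G T :=
  fun U hU hne => h U (hU.trans hT) hne

open Classical in
theorem card_nbs_insert (G : SimpleGraph V) {T : Finset V} {x : V} (hx : x ∉ T) (y : V) :
    (nbs G (insert x T) y).card = (nbs G T y).card + if G.Adj y x then 1 else 0 := by
  classical
  by_cases h : G.Adj y x
  · have h1 : nbs G (insert x T) y = insert x (nbs G T y) := by
      ext z
      rw [mem_nbs, mem_insert, mem_insert, mem_nbs]
      constructor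
      · rintro ⟨rfl | hz, hz2⟩
        · exact Or.inl rfl
        · exact Or.inr ⟨hz, hz2⟩
      · rintro (rfl | ⟨hz, hz2⟩)
        · exact ⟨Or.inl rfl, h⟩
        · exact ⟨Or.inr hz, hz2⟩
    rw [h1, card_insert_of_notMem (fun hh => hx (mem_nbs.mp hh).1), if_pos h]
  · have h1 : nbs G (insert x T) y = nbs G T y := by
      ext z
      rw [mem_nbs, mem_insert, mem_nbs]
      constructor
      · rintro ⟨rfl | hz, hz2⟩
        · exact absurd hz2 h
        · exact ⟨hz, hz2⟩
      · rintro ⟨hz, hz2⟩
        exact ⟨Or.inr hz, hz2⟩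
    rw [h1, if_neg h, add_zero]

theorem card_nbs_self (G : SimpleGraph V) {T : Finset V} {x : V} (hx : x ∉ T) :
    (nbs G (insert x T) x).card = (nbs G T x).card := by
  classical
  rw [card_nbs_insert G hx, if_neg (fun h => G.loopless.irrefl x h), add_zero]

theorem sm_insert (G : SimpleGraph V) {T : Finset V} {x : V} (hx : x ∉ T) :
    sm G (insert x T) = sm G T + 2 * (nbs G T x).card := by
  classical
  unfold sm
  rw [sum_insert hx, card_nbs_self G hx]
  have h1 : ∑ y ∈ T, (nbs G (insert x T) y).card =
      ∑ y ∈ T, ((nbs G T y).card + if G.Adj y x then 1 else 0) :=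
    sum_congr rfl fun y _ => card_nbs_insert G hx y
  rw [h1, sum_add_distrib]
  have h2 : ∑ y ∈ T, (if G.Adj y x then 1 else 0) = (nbs G T x).card := by
    rw [← card_filter]
    congr 1
    ext y
    rw [mem_filter, mem_nbs, G.adj_comm]
  rw [h2]
  ring

theorem Thin.sum {G : SimpleGraph V} (n : ℕ) : ∀ S : Finset V, S.card = n → Thin G S →
    S.Nonempty → sm G S + 2 ≤ 2 * S.card := by
  induction n with
  | zero =>
    intro S hS _ hne
    rw [card_eq_zero] at hS
    exact absurd hS hne.ne_empty
  | succ n ih =>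
    intro S hS hth hne
    obtain ⟨x, hx, hdx⟩ := hth S subset_rfl hne
    have hxe : x ∉ S.erase x := notMem_erase x S
    have hins := insert_erase hx
    have hc : (S.erase x).card = n := by rw [card_erase_of_mem hx, hS]; rfl
    have h1 := sm_insert G hxe
    have h2 := card_nbs_self G hxe
    rw [hins] at h1 h2
    by_cases he : (S.erase x).Nonempty
    · have h3 := ih _ hc (hth.mono (erase_subset _ _)) he
      omega
    · rw [not_nonempty_iff_eq_empty] at he
      have h4 : sm G (S.erase x) = 0 := by rw [he]; rfl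
      have h5 : (nbs G (S.erase x) x).card = 0 := by
        rw [he]
        simp [nbs]
      have h6 : n = 0 := by rw [← hc, he]; rfl
      omega

/-- a thin set has a vertex different from `a` with at most one neighbour -/
theorem Thin.other {G : SimpleGraph V} {S : Finset V} (h : Thin G S) {a : V} (ha : a ∈ S)
    (hne : (S.erase a).Nonempty) : ∃ x ∈ S, x ≠ a ∧ (nbs G S x).card ≤ 1 := by
  by_contra hcon
  push Not at hcon
  have hae : a ∉ S.erase a := notMem_erase a S
  have hins := insert_erase ha
  have h1 := Thin.sum S.card S rfl h ⟨a, ha⟩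
  have h2 : sm G S = (nbs G S a).card + ∑ x ∈ S.erase a, (nbs G S x).card := by
    unfold sm
    rw [← sum_erase_add _ _ ha, add_comm]
  have h3 : ∑ x ∈ S.erase a, 2 ≤ ∑ x ∈ S.erase a, (nbs G S x).card :=
    sum_le_sum fun x hx => hcon x (mem_of_mem_erase hx) (ne_of_mem_erase hx)
  rw [sum_const, smul_eq_mul, card_erase_of_mem ha] at h3
  have h4 : 0 < S.card := card_pos.mpr ⟨a, ha⟩
  have h5 : (nbs G S a).card = 0 := by omega
  obtain ⟨x, hx, hdx⟩ := h (S.erase a) (erase_subset _ _) hne
  have h6 := hcon x (mem_of_mem_erase hx) (ne_of_mem_erase hx)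
  have h7 := card_nbs_insert G hae x
  rw [hins] at h7
  have h8 : ¬ G.Adj x a := by
    intro hadj
    have : x ∈ nbs G S a := mem_nbs.mpr ⟨mem_of_mem_erase hx, hadj.symm⟩
    rw [card_eq_zero] at h5
    rw [h5] at this
    exact absurd this (notMem_empty x)
  classical
  rw [if_neg h8] at h7
  omega

/-! ### The edges between `S` and `S ∪ K` -/

/-- the edges of `G` inside `S ∪ K` which meet `S` -/
def EE (G : SimpleGraph V) (K S : Finset V) : Set (Sym2 V) :=
  {e | e ∈ G.edgeSet ∧ (∃ x ∈ S, x ∈ e) ∧ ∀ y ∈ e, y ∈ S ∨ y ∈ K}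

theorem EE_empty (G : SimpleGraph V) (K : Finset V) : EE G K ∅ = ∅ := by
  ext e
  constructor
  · rintro ⟨_, ⟨x, hx, _⟩, _⟩
    exact absurd hx (notMem_empty x)
  · intro h
    exact absurd h (Set.notMem_empty e)

theorem EE_insert (G : SimpleGraph V) {K S : Finset V} {x : V} (hxS : x ∉ S) (hxK : x ∉ K) :
    EE G K (insert x S) = EE G K S ∪ star x (nbs G (S ∪ K) x) := by
  ext e
  constructor
  · rintro ⟨he, ⟨w, hw, hwe⟩, hall⟩
    by_cases hxe : x ∈ e
    · right
      obtain ⟨y, rfl⟩ := Sym2.mem_iff_exists.mp hxe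
      have hadj : G.Adj x y := he
      have hy := hall y (Sym2.mem_mk_right _ _)
      refine ⟨y, ?_, rfl⟩
      rw [mem_coe, mem_nbs, mem_union]
      refine ⟨?_, hadj⟩
      rcases hy with hy | hy
      · rcases mem_insert.mp hy with rfl | hy
        · exact absurd rfl hadj.ne
        · exact Or.inl hy
      · exact Or.inr hy
    · left
      refine ⟨he, ⟨w, ?_, hwe⟩, fun y hy => ?_⟩
      · rcases mem_insert.mp hw with rfl | hw
        · exact absurd hwe hxe
        · exact hw
      · rcases hall y hy with hy2 | hy2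
        · rcases mem_insert.mp hy2 with rfl | hy2
          · exact absurd hy hxe
          · exact Or.inl hy2
        · exact Or.inr hy2
  · rintro (⟨he, ⟨w, hw, hwe⟩, hall⟩ | ⟨y, hy, rfl⟩)
    · exact ⟨he, ⟨w, mem_insert_of_mem hw, hwe⟩,
        fun y hy => (hall y hy).imp_left mem_insert_of_mem⟩
    · rw [mem_coe, mem_nbs, mem_union] at hy
      refine ⟨hy.2, ⟨x, mem_insert_self _ _, Sym2.mem_mk_left _ _⟩, ?_⟩
      intro w hw
      rcases Sym2.mem_iff.mp hw with rfl | rfl
      · exact Or.inl (mem_insert_self _ _)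
      · exact hy.1.imp_left mem_insert_of_mem

theorem EE_avoids (G : SimpleGraph V) {K S : Finset V} {x : V} (hxS : x ∉ S) (hxK : x ∉ K) :
    Avoids (EE G K S) x := by
  rintro e ⟨_, _, hall⟩ hx
  rcases hall x hx with h | h
  · exact hxS h
  · exact hxK h

theorem pairs_avoids {K : Finset V} {x : V} (hx : x ∉ K) : Avoids (pairs K) x := by
  rintro _ ⟨a, ha, b, hb, _, rfl⟩ h
  rcases Sym2.mem_iff.mp h with rfl | rfl
  · exact hx ha
  · exact hx hb

theorem card_nbs_union (G : SimpleGraph V) {S K : Finset V} (x : V) :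
    (nbs G (S ∪ K) x).card ≤ (nbs G S x).card + (nbs G K x).card := by
  have : nbs G (S ∪ K) x ⊆ nbs G S x ∪ nbs G K x := by
    intro y hy
    rw [mem_nbs, mem_union] at hy
    rw [mem_union, mem_nbs, mem_nbs]
    rcases hy with ⟨h | h, h2⟩
    · exact Or.inl ⟨h, h2⟩
    · exact Or.inr ⟨h, h2⟩
  exact (card_le_card this).trans (card_union_le _ _)

theorem not_mem_nbs (G : SimpleGraph V) (T : Finset V) (x : V) : x ∉ nbs G T x := fun h =>
  G.loopless.irrefl x (mem_nbs.mp h).2

/-- A thin set with an additional edge `az` is independent over the clique. -/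
theorem ext_thin {p : V → Fin 3 → ℝ} (hp : Generic p) (G : SimpleGraph V) {K : Finset V}
    {B : Set (Sym2 V)} (hB : Indep B) (hBK : B ⊆ pairs K) {a z : V} (hz : z ∈ K) (n : ℕ) :
    ∀ S : Finset V, S.card = n → (∀ x ∈ S, x ∉ K) → (∀ x ∈ S, (nbs G K x).card ≤ 2) →
      Thin G S → a ∈ S → Indep (insert s(a, z) (B ∪ EE G K S)) := by
  classical
  induction n with
  | zero =>
    intro S hS _ _ _ ha
    rw [card_eq_zero] at hS
    rw [hS] at ha
    exact absurd ha (notMem_empty a)
  | succ n ih =>
    intro S hS hSK hdeg hth ha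
    by_cases hne : (S.erase a).Nonempty
    · obtain ⟨x, hx, hxa, hdx⟩ := hth.other ha hne
      have hxe : x ∉ S.erase x := notMem_erase x S
      have hins := insert_erase hx
      have hc : (S.erase x).card = n := by rw [card_erase_of_mem hx, hS]; rfl
      have h1 := ih (S.erase x) hc (fun y hy => hSK y (mem_of_mem_erase hy))
        (fun y hy => hdeg y (mem_of_mem_erase hy)) (hth.mono (erase_subset _ _))
        (mem_erase.mpr ⟨hxa.symm, ha⟩)
      have hxK := hSK x hx
      have h2 := EE_insert G hxe hxK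
      rw [hins] at h2
      have h3 := card_nbs_self G hxe
      rw [hins] at h3
      have h4 := card_nbs_union G (S := S.erase x) (K := K) x
      have h5 := hdeg x hx
      have hav : Avoids (insert s(a, z) (B ∪ EE G K (S.erase x))) x := by
        rintro e (rfl | he | he)
        · intro h
          rcases Sym2.mem_iff.mp h with h | h
          · exact hxa h
          · exact hxK (h ▸ hz)
        · exact pairs_avoids hxK e (hBK he)
        · exact EE_avoids G hxe hxK e he
      have h6 := hp.zero_ext hav h1 (not_mem_nbs G (S.erase x ∪ K) x) (by omega)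
      refine h6.mono ?_
      rw [h2]
      rintro e (rfl | he | he | he)
      · exact Or.inl (Or.inl rfl)
      · exact Or.inl (Or.inr (Or.inl he))
      · exact Or.inl (Or.inr (Or.inr he))
      · exact Or.inr he
    · rw [not_nonempty_iff_eq_empty] at hne
      have hS1 : S = insert a ∅ := by
        rw [← hne, insert_erase ha]
      have haK := hSK a ha
      have h2 : EE G K S = star a (nbs G K a) := by
        rw [hS1, EE_insert G (notMem_empty a) haK, EE_empty, Set.empty_union, empty_union]
      have hza : a ∉ insert z (nbs G K a) := by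
        rw [mem_insert]
        rintro (h | h)
        · exact haK (h ▸ hz)
        · exact not_mem_nbs G K a h
      have hcard : (insert z (nbs G K a)).card ≤ 3 :=
        (card_insert_le _ _).trans (by have := hdeg a ha; omega)
      have h6 := hp.zero_ext (fun e he => pairs_avoids haK e (hBK he)) hB hza hcard
      refine h6.mono ?_
      rw [h2, star_insert]
      rintro e (rfl | he | he)
      · exact Or.inr (Or.inl rfl)
      · exact Or.inl he
      · exact Or.inr (Or.inr he)

/-- A thin set and one more vertex with two neighbours in it. -/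
theorem ext_cycle {p : V → Fin 3 → ℝ} (hp : Generic p) (G : SimpleGraph V) {K T : Finset V}
    {B : Set (Sym2 V)} (hB : Indep B) (hBK : B ⊆ pairs K) {y a z : V} (hy : y ∈ T)
    (hTK : ∀ x ∈ T, x ∉ K) (hdeg : ∀ x ∈ T, (nbs G K x).card ≤ 2)
    (hdy : (nbs G T y).card ≤ 2) (hth : Thin G (T.erase y)) (ha : a ∈ T) (hya : G.Adj y a)
    (hz : z ∈ K) (hyz : G.Adj y z) (haz : ¬ G.Adj a z) : Indep (B ∪ EE G K T) := by
  classical
  have hye : y ∉ T.erase y := notMem_erase y T
  have hins := insert_erase hy
  have hyK := hTK y hy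
  have haK := hTK a ha
  have h1 := ext_thin hp G hB hBK (a := a) hz _ (T.erase y) rfl
    (fun x hx => hTK x (mem_of_mem_erase hx)) (fun x hx => hdeg x (mem_of_mem_erase hx)) hth
    (mem_erase.mpr ⟨hya.ne', ha⟩)
  have h2 := EE_insert G hye hyK
  rw [hins] at h2
  have h3 := card_nbs_self G hye
  rw [hins] at h3
  have h4 := card_nbs_union G (S := T.erase y) (K := K) y
  have h5 := hdeg y hy
  have hnot : s(a, z) ∉ B ∪ EE G K (T.erase y) := by
    rintro (h | h)
    · exact pairs_avoids haK _ (hBK h) (Sym2.mem_mk_left _ _)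
    · exact haz h.1
  have hav : Avoids (B ∪ EE G K (T.erase y)) y := by
    rintro e (he | he)
    · exact pairs_avoids hyK e (hBK he)
    · exact EE_avoids G hye hyK e he
  have h6 := hp.one_ext hav hnot h1 (not_mem_nbs G (T.erase y ∪ K) y) (by omega)
    (mem_nbs.mpr ⟨mem_union_left _ (mem_erase.mpr ⟨hya.ne', ha⟩), hya⟩)
    (mem_nbs.mpr ⟨mem_union_right _ hz, hyz⟩) (fun e => haK (e ▸ hz))
  rw [h2, ← Set.union_assoc]
  exact h6

end Pool.Agent.Lib.MP_071ace_co.AA
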